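import Pool.Agent.V7L.Dc.Perm

/-!
# A point of multiplicity three on the permanental hypersurface

`pt R a b` is the matrix all entries of which are `1`, except for the four entries in the rows and
columns `a`, `b`.  If `V` has zero row and column sums and vanishes on the rows and columns `a`, `b`,
then the permanent of `pt + T V` is divisible by `T ^ 3`, and the coefficient of `T ^ 3` is a
multiple of the sum of the cubes of the entries of `V`.
-/

set_option autoImplicit false
set_option linter.unusedSectionVars false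

namespace Pool.Agent.V7L.Dc

open Finset Equiv

variable {R : Type*} [CommRing R] {I : Type*} [Fintype I] [DecidableEq I]

/-- The sum over all permutations of the products over `S`. -/
def E (v : Matrix I I R) (S : Finset I) : R := ∑ σ : Perm I, ∏ i ∈ S, v (σ i) i

theorem avgG (T : Finset I) (z : I) (Φ : Perm I → R)
    (hinv : ∀ σ x y, x ∉ T → y ∉ T → Φ (σ * swap x y) = Φ σ)
    (hz : ∀ σ : Perm I, σ⁻¹ z ∈ T → Φ σ = 0) (r : I) (hr : r ∉ T) :
    ((Fintype.card I : R) - T.card) * ∑ σ : Perm I, (if σ r = z then 1 else 0) * Φ σ =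
      ∑ σ : Perm I, Φ σ := by
  have h1 : ∀ r' ∈ univ \ T, ∑ σ : Perm I, (if σ r' = z then 1 else 0) * Φ σ =
      ∑ σ : Perm I, (if σ r = z then 1 else 0) * Φ σ := by
    intro r' hr'
    rw [← sum_swap (fun σ : Perm I => (if σ r = z then (1 : R) else 0) * Φ σ) r r']
    refine Finset.sum_congr rfl fun σ _ => ?_
    beta_reduce
    rw [hinv σ r r' hr (mem_sdiff.1 hr').2]
    simp
  have h2 : ∑ r' ∈ univ \ T, ∑ σ : Perm I, (if σ r' = z then 1 else 0) * Φ σ =
      ((Fintype.card I : R) - T.card) * ∑ σ : Perm I, (if σ r = z then 1 else 0) * Φ σ := by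
    rw [Finset.sum_congr rfl h1, Finset.sum_const, nsmul_eq_mul, card_sdiff_of_subset (subset_univ T),
      Finset.card_univ, Nat.cast_sub (Finset.card_le_univ T)]
  rw [← h2, Finset.sum_comm]
  refine Finset.sum_congr rfl fun σ _ => ?_
  rw [← Finset.sum_mul]
  by_cases h4 : σ⁻¹ z ∈ T
  · rw [hz σ h4, mul_zero]
  · have h5 : ∑ r' ∈ univ \ T, (if σ r' = z then (1 : R) else 0) = 1 := by
      rw [Finset.sum_eq_single (σ⁻¹ z)]
      · simp
      · intro r' _ hr'
        rw [if_neg]
        intro h6
        apply hr'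
        rw [← h6]
        simp
      · intro h6
        exact absurd (mem_sdiff.2 ⟨mem_univ _, h4⟩) h6
    rw [h5, one_mul]

/-- The point. -/
def pt (R : Type*) [CommRing R] (a b : I) : Matrix I I R :=
  Matrix.of fun i j =>
    (if j = a then (if i = a then 0 else if i = b then 4 - (Fintype.card I : R) else 1) else 1) *
      (if j = b then (if i = a then 2 - (Fintype.card I : R) else 1) else 1)

/-- The weight of a permutation. -/
def wt (R : Type*) [CommRing R] (a b : I) (σ : Perm I) : R :=
  (if σ a = a then 0 else if σ a = b then 4 - (Fintype.card I : R) else 1) *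
    (if σ b = a then 2 - (Fintype.card I : R) else 1)

/-- The weighted sum. -/
def Q2 (a b : I) (v : Matrix I I R) (S : Finset I) : R :=
  ∑ σ : Perm I, wt R a b σ * ∏ i ∈ S, v (σ i) i

theorem perm_expand2 {a b : I} (hab : a ≠ b) (v : Matrix I I R) (ha : ∀ i, v i a = 0)
    (hb : ∀ i, v i b = 0) :
    (pt R a b + v).permanent = ∑ S ∈ (univ : Finset I).powerset, Q2 a b v S := by
  unfold Matrix.permanent Q2
  have h1 : ∀ σ : Perm I, ∏ i, (pt R a b + v) (σ i) i =
      ∑ S ∈ (univ : Finset I).powerset, wt R a b σ * ∏ i ∈ S, v (σ i) i := by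
    intro σ
    have h2 : ∀ i, (pt R a b + v) (σ i) i =
        (if i = a then (if σ a = a then 0 else if σ a = b then 4 - (Fintype.card I : R) else 1)
          else 1) * (if i = b then (if σ b = a then 2 - (Fintype.card I : R) else 1) else 1) *
          (1 + v (σ i) i) := by
      intro i
      simp only [Matrix.add_apply, pt, Matrix.of_apply]
      by_cases hi : i = a
      · subst hi
        rw [ha]
        simp only [if_pos, if_neg hab]
        ring
      · by_cases hi' : i = b
        · subst hi'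
          rw [hb]
          simp only [if_pos, if_neg hi]
          ring
        · rw [if_neg hi, if_neg hi, if_neg hi', if_neg hi']
          ring
    rw [Finset.prod_congr rfl fun i _ => h2 i, Finset.prod_mul_distrib, Finset.prod_mul_distrib,
      Finset.prod_ite_eq' univ a, if_pos (mem_univ a), Finset.prod_ite_eq' univ b,
      if_pos (mem_univ b), Finset.prod_one_add, Finset.mul_sum]
    rfl
  rw [Finset.sum_congr rfl fun σ _ => h1 σ, Finset.sum_comm]

theorem wt_eq {a b : I} (hab : a ≠ b) (σ : Perm I) : wt R a b σ =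
    1 - (if σ a = a then 1 else 0) + (3 - (Fintype.card I : R)) * (if σ a = b then 1 else 0) +
      (1 - (Fintype.card I : R)) * (if σ b = a then 1 else 0) +
      (3 - (Fintype.card I : R)) * (1 - (Fintype.card I : R)) *
        ((if σ b = a then 1 else 0) * (if σ a = b then 1 else 0)) := by
  unfold wt
  by_cases h1 : σ a = a
  · have h2 : σ b ≠ a := by
      intro h
      exact hab (σ.injective (h1.trans h.symm))
    have h3 : σ a ≠ b := by rw [h1]; exact hab
    rw [if_pos h1, if_pos h1, if_neg h2, if_neg h2, if_neg h3]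
    ring
  · rw [if_neg h1, if_neg h1]
    by_cases h2 : σ a = b
    · rw [if_pos h2, if_pos h2]
      by_cases h3 : σ b = a
      · rw [if_pos h3, if_pos h3]
        ring
      · rw [if_neg h3, if_neg h3]
        ring
    · rw [if_neg h2, if_neg h2]
      by_cases h3 : σ b = a
      · rw [if_pos h3, if_pos h3]
        ring
      · rw [if_neg h3, if_neg h3]
        ring

theorem Q2_eq {a b : I} (hab : a ≠ b) (v : Matrix I I R) (hra : ∀ j, v a j = 0)
    (hrb : ∀ j, v b j = 0) (hca : ∀ i, v i a = 0) (hcb : ∀ i, v i b = 0) (S : Finset I) :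
    ((Fintype.card I : R) - S.card) * ((Fintype.card I : R) - S.card - 1) * Q2 a b v S =
      (S.card : R) * (S.card - 2) * E v S := by
  classical
  have hzero : ∀ c, c ∈ S → (∀ i, v i c = 0) → Q2 a b v S = 0 ∧ E v S = 0 := by
    intro c hc hcc
    have h0 : ∀ σ : Perm I, ∏ i ∈ S, v (σ i) i = 0 := fun σ =>
      Finset.prod_eq_zero (f := fun i => v (σ i) i) hc (hcc (σ c))
    exact ⟨Finset.sum_eq_zero fun σ _ => by rw [h0, mul_zero], Finset.sum_eq_zero fun σ _ => h0 σ⟩
  by_cases haS : a ∈ S
  · rw [(hzero a haS hca).1, (hzero a haS hca).2, mul_zero, mul_zero]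
  by_cases hbS : b ∈ S
  · rw [(hzero b hbS hcb).1, (hzero b hbS hcb).2, mul_zero, mul_zero]
  set Φ : Perm I → R := fun σ => ∏ i ∈ S, v (σ i) i with hΦ
  have hinv : ∀ (σ : Perm I) (x y : I), x ∉ S → y ∉ S → Φ (σ * swap x y) = Φ σ := by
    intro σ x y hx hy
    refine Finset.prod_congr rfl fun i hi => ?_
    have h3 : swap x y i = i := by
      apply swap_apply_of_ne_of_ne
      · rintro rfl
        exact hx hi
      · rintro rfl
        exact hy hi
    simp [h3]
  have hz : ∀ c, (∀ j, v c j = 0) → ∀ σ : Perm I, σ⁻¹ c ∈ S → Φ σ = 0 := by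
    intro c hc σ hσ
    refine Finset.prod_eq_zero hσ ?_
    simp [hc]
  -- the first averages
  have g1 := avgG S a Φ hinv (hz a hra) a haS
  have g2 := avgG S b Φ hinv (hz b hrb) a haS
  have g3 := avgG S a Φ hinv (hz a hra) b hbS
  -- the second average
  have g4 := avgG (insert a S) a (fun σ => (if σ a = b then 1 else 0) * Φ σ) (by
      intro σ x y hx hy
      have h1 : x ∉ S := fun h => hx (mem_insert_of_mem h)
      have h2 : y ∉ S := fun h => hy (mem_insert_of_mem h)
      have h3 : swap x y a = a := by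
        apply swap_apply_of_ne_of_ne
        · rintro rfl
          exact hx (mem_insert_self _ _)
        · rintro rfl
          exact hy (mem_insert_self _ _)
      beta_reduce
      rw [hinv σ x y h1 h2]
      simp [h3]) (by
      intro σ hσ
      beta_reduce
      rcases mem_insert.1 hσ with h1 | h1
      · have h3 : σ a = a := by
          conv_lhs => rw [← h1]
          simp
        rw [if_neg (by rw [h3]; exact hab), zero_mul]
      · rw [hz a hra σ h1, mul_zero]) b (by
      intro h
      rcases mem_insert.1 h with h1 | h1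
      · exact hab h1.symm
      · exact hbS h1)
  rw [card_insert_of_notMem haS] at g4
  have hE : ∑ σ : Perm I, Φ σ = E v S := rfl
  rw [hE] at g1 g2 g3
  have hQ : Q2 a b v S = E v S - ∑ σ : Perm I, (if σ a = a then 1 else 0) * Φ σ +
      (3 - (Fintype.card I : R)) * ∑ σ : Perm I, (if σ a = b then 1 else 0) * Φ σ +
      (1 - (Fintype.card I : R)) * ∑ σ : Perm I, (if σ b = a then 1 else 0) * Φ σ +
      (3 - (Fintype.card I : R)) * (1 - (Fintype.card I : R)) *
        ∑ σ : Perm I, (if σ b = a then 1 else 0) * ((if σ a = b then 1 else 0) * Φ σ) := by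
    rw [← hE]
    unfold Q2
    rw [Finset.mul_sum, Finset.mul_sum, Finset.mul_sum, ← Finset.sum_sub_distrib,
      ← Finset.sum_add_distrib, ← Finset.sum_add_distrib, ← Finset.sum_add_distrib]
    refine Finset.sum_congr rfl fun σ _ => ?_
    rw [wt_eq hab]
    ring
  push_cast at g4
  rw [hQ]
  linear_combination (-((Fintype.card I : R) - S.card - 1)) * g1 +
    (3 - (Fintype.card I : R)) * ((Fintype.card I : R) - S.card - 1) * g2 +
    (1 - (Fintype.card I : R)) * ((Fintype.card I : R) - S.card - 1) * g3 +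
    (3 - (Fintype.card I : R)) * (1 - (Fintype.card I : R)) *
      (((Fintype.card I : R) - S.card) * g4 + g2)

section Cube

variable (v : Matrix I I R) (hr : ∀ i, ∑ j, v i j = 0) (hc : ∀ j, ∑ i, v i j = 0)
include hr hc

theorem E_triple {i k l : I} (hik : i ≠ k) (hil : i ≠ l) (hkl : k ≠ l) :
    ((Fintype.card I : R) - 1) * ((Fintype.card I : R) - 2) * E v {i, k, l} =
      2 * ∑ σ : Perm I, v (σ i) i * v (σ i) k * v (σ i) l := by
  have h1 := avg2 (fun a => v a i) (fun a => v a k) (fun a => v a l) (hc l) hik hil hkl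
  have h2 : E v {i, k, l} = ∑ σ : Perm I, v (σ i) i * v (σ k) k * v (σ l) l := by
    unfold E
    refine Finset.sum_congr rfl fun σ _ => ?_
    rw [Finset.prod_insert (by simp [hik, hil]), Finset.prod_pair hkl, mul_assoc]
  rw [← h2] at h1
  have h3 : ∑ σ : Perm I, v (σ i) i * v (σ k) k * (v (σ i) l + v (σ k) l) =
      ∑ σ : Perm I, (v (σ i) i * v (σ i) l) * v (σ k) k +
        ∑ σ : Perm I, (v (σ k) k * v (σ k) l) * v (σ i) i := by
    rw [← Finset.sum_add_distrib]
    refine Finset.sum_congr rfl fun σ _ => ?_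
    ring
  have h4 := avg1 (fun a => v a i * v a l) (fun a => v a k) (hc k) hik
  have h5 := avg1 (fun a => v a k * v a l) (fun a => v a i) (hc i) hik.symm
  have h6 : ∑ σ : Perm I, v (σ k) k * v (σ k) l * v (σ k) i =
      ∑ σ : Perm I, v (σ i) k * v (σ i) l * v (σ i) i := by
    rw [← sum_swap (fun σ => v (σ i) k * v (σ i) l * v (σ i) i) i k]
    refine Finset.sum_congr rfl fun σ _ => ?_
    simp
  have h7 : ∑ σ : Perm I, v (σ i) k * v (σ i) l * v (σ i) i =
      ∑ σ : Perm I, v (σ i) i * v (σ i) k * v (σ i) l :=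
    Finset.sum_congr rfl fun σ _ => by ring
  have h8 : ∑ σ : Perm I, v (σ i) i * v (σ i) l * v (σ i) k =
      ∑ σ : Perm I, v (σ i) i * v (σ i) k * v (σ i) l :=
    Finset.sum_congr rfl fun σ _ => by ring
  beta_reduce at h1 h4 h5
  rw [h3] at h1
  rw [h8] at h4
  rw [h6, h7] at h5
  linear_combination ((Fintype.card I : R) - 1) * h1 - h4 - h5

theorem cube_identity :
    6 * (Fintype.card I : R) * ((Fintype.card I : R) - 1) * ((Fintype.card I : R) - 2) *
        ∑ S ∈ powersetCard 3 univ, E v S =
      4 * ((Fintype.card I).factorial : R) * ∑ i, ∑ j, v i j ^ 3 := by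
  have h1 := sum_triples (E v)
  have h2 : ∑ i, ∑ k ∈ univ.erase i, ∑ l ∈ (univ.erase i).erase k,
      ∑ σ : Perm I, v (σ i) i * v (σ i) k * v (σ i) l =
      ∑ i, ∑ σ : Perm I, (2 * v (σ i) i ^ 3 - v (σ i) i * ∑ k, v (σ i) k ^ 2) := by
    refine Finset.sum_congr rfl fun i _ => ?_
    have h6 : ∀ k ∈ univ.erase i, ∑ l ∈ (univ.erase i).erase k,
        ∑ σ : Perm I, v (σ i) i * v (σ i) k * v (σ i) l =
        ∑ σ : Perm I, v (σ i) i * (v (σ i) k * (-(v (σ i) i) - v (σ i) k)) := by
      intro k hk
      rw [Finset.sum_comm]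
      refine Finset.sum_congr rfl fun σ _ => ?_
      rw [← Finset.mul_sum]
      have h7 := Finset.add_sum_erase univ (fun k => v (σ i) k) (mem_univ i)
      have h8 := Finset.add_sum_erase (univ.erase i) (fun k => v (σ i) k) hk
      rw [hr] at h7
      linear_combination (v (σ i) i) * (v (σ i) k) * (h7 + h8)
    rw [Finset.sum_congr rfl h6, Finset.sum_comm]
    refine Finset.sum_congr rfl fun σ _ => ?_
    rw [← Finset.mul_sum]
    have h7 := Finset.add_sum_erase univ (fun k => v (σ i) k) (mem_univ i)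
    have h8 := Finset.add_sum_erase univ (fun k => v (σ i) k ^ 2) (mem_univ i)
    rw [hr] at h7
    have h9 : ∑ k ∈ univ.erase i, v (σ i) k * (-(v (σ i) i) - v (σ i) k) =
        -(v (σ i) i) * ∑ k ∈ univ.erase i, v (σ i) k - ∑ k ∈ univ.erase i, v (σ i) k ^ 2 := by
      rw [Finset.mul_sum, ← Finset.sum_sub_distrib]
      refine Finset.sum_congr rfl fun k _ => ?_
      ring
    rw [h9]
    linear_combination (-(v (σ i) i) ^ 2) * h7 - (v (σ i) i) * h8
  have h3 : ((Fintype.card I : R) - 1) * ((Fintype.card I : R) - 2) *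
      (6 * ∑ S ∈ powersetCard 3 univ, E v S) =
      2 * ∑ i, ∑ σ : Perm I, (2 * v (σ i) i ^ 3 - v (σ i) i * ∑ k, v (σ i) k ^ 2) := by
    rw [← h1, ← h2]
    simp only [Finset.mul_sum (univ : Finset I), Finset.mul_sum (univ.erase _)]
    refine Finset.sum_congr rfl fun i _ => ?_
    refine Finset.sum_congr rfl fun k hk => ?_
    simp only [Finset.mul_sum ((univ.erase _).erase _)]
    refine Finset.sum_congr rfl fun l hl => ?_
    exact E_triple v hr hc (ne_of_mem_erase hk).symm
        (ne_of_mem_erase (mem_of_mem_erase hl)).symm (ne_of_mem_erase hl).symm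
  have h7 : ∀ i : I, (Fintype.card I : R) *
      ∑ σ : Perm I, (2 * v (σ i) i ^ 3 - v (σ i) i * ∑ k, v (σ i) k ^ 2) =
      ((Fintype.card I).factorial : R) * ∑ j, (2 * v j i ^ 3 - v j i * ∑ k, v j k ^ 2) :=
    fun i => avg0 (fun a => 2 * v a i ^ 3 - v a i * ∑ k, v a k ^ 2) i
  have h8 : (Fintype.card I : R) *
      ∑ i, ∑ σ : Perm I, (2 * v (σ i) i ^ 3 - v (σ i) i * ∑ k, v (σ i) k ^ 2) =
      ((Fintype.card I).factorial : R) *
      ∑ i, ∑ j, (2 * v j i ^ 3 - v j i * ∑ k, v j k ^ 2) := by
    rw [Finset.mul_sum, Finset.sum_congr rfl fun i _ => h7 i, ← Finset.mul_sum]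
  have h10 : ∑ i, ∑ j, (2 * v j i ^ 3 - v j i * ∑ k, v j k ^ 2) = 2 * ∑ i, ∑ j, v i j ^ 3 := by
    rw [Finset.sum_comm, Finset.mul_sum]
    refine Finset.sum_congr rfl fun j _ => ?_
    rw [Finset.sum_sub_distrib, ← Finset.mul_sum, ← Finset.sum_mul, hr, zero_mul, sub_zero]
  rw [h10] at h8
  linear_combination (Fintype.card I : R) * h3 + 2 * h8

theorem E_one : (Fintype.card I : R) * ∑ S ∈ powersetCard 1 univ, E v S = 0 := by
  rw [powersetCard_one, sum_map, Finset.mul_sum]
  refine Finset.sum_eq_zero fun i _ => ?_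
  have h1 : E v ((⟨_, singleton_injective⟩ : I ↪ Finset I) i) = ∑ σ : Perm I, v (σ i) i := by
    unfold E
    refine Finset.sum_congr rfl fun σ _ => ?_
    exact Finset.prod_singleton _ _
  rw [h1, avg0 (fun a => v a i) i, hc, mul_zero]

end Cube

section Poly

open Polynomial

/-- The permanent along the line through `pt` in the direction `v`. -/
noncomputable def line (a b : I) (v : Matrix I I R) : R[X] :=
  (pt R[X] a b + (X : R[X]) • v.map C).permanent


theorem line_eq {a b : I} (hab : a ≠ b) (v : Matrix I I R) (ha : ∀ i, v i a = 0)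
    (hb : ∀ i, v i b = 0) :
    line a b v = ∑ S ∈ (univ : Finset I).powerset, C (Q2 a b v S) * (X : R[X]) ^ S.card := by
  unfold line
  rw [perm_expand2 hab _ (fun i => by simp [ha]) (fun i => by simp [hb])]
  refine Finset.sum_congr rfl fun S _ => ?_
  unfold Q2
  rw [map_sum, Finset.sum_mul]
  refine Finset.sum_congr rfl fun σ _ => ?_
  have h1 : wt R[X] a b σ = C (wt R a b σ) := by
    unfold wt
    have e4 : (C (4 : R) : R[X]) = 4 := map_ofNat C 4
    have e2 : (C (2 : R) : R[X]) = 2 := map_ofNat C 2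
    rw [map_mul]
    congr 1
    · split_ifs <;> simp [e4]
    · split_ifs <;> simp [e2]
  have h2 : ∏ i ∈ S, ((X : R[X]) • v.map C) (σ i) i = X ^ S.card * C (∏ i ∈ S, v (σ i) i) := by
    rw [map_prod, ← Finset.prod_const, ← Finset.prod_mul_distrib]
    refine Finset.prod_congr rfl fun i _ => ?_
    simp
  rw [h1, h2, map_mul]
  ring

theorem coeff_line {a b : I} (hab : a ≠ b) (v : Matrix I I R) (ha : ∀ i, v i a = 0)
    (hb : ∀ i, v i b = 0) (k : ℕ) :
    (line a b v).coeff k = ∑ S ∈ powersetCard k univ, Q2 a b v S := by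
  rw [line_eq hab v ha hb, Polynomial.finsetSum_coeff]
  simp only [Polynomial.coeff_C_mul, Polynomial.coeff_X_pow, mul_ite, mul_one, mul_zero]
  rw [← Finset.sum_filter]
  refine Finset.sum_congr ?_ fun _ _ => rfl
  ext S
  simp [mem_powersetCard, eq_comm]

variable {a b : I} (hab : a ≠ b) (v : Matrix I I R) (hra : ∀ j, v a j = 0)
  (hrb : ∀ j, v b j = 0) (hca : ∀ i, v i a = 0) (hcb : ∀ i, v i b = 0)
include hab hra hrb hca hcb

theorem coeff_mul (k : ℕ) :
    ((Fintype.card I : R) - k) * ((Fintype.card I : R) - k - 1) * (line a b v).coeff k =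
      (k : R) * (k - 2) * ∑ S ∈ powersetCard k univ, E v S := by
  rw [coeff_line hab v hca hcb, Finset.mul_sum, Finset.mul_sum]
  refine Finset.sum_congr rfl fun S hS => ?_
  have h3 := Q2_eq hab v hra hrb hca hcb S
  rwa [(mem_powersetCard.1 hS).2] at h3

theorem coeff_zero_mul : (Fintype.card I : R) * ((Fintype.card I : R) - 1) *
    (line a b v).coeff 0 = 0 := by
  have h := coeff_mul hab v hra hrb hca hcb 0
  simpa using h

theorem coeff_one_mul (hr : ∀ i, ∑ j, v i j = 0) (hc : ∀ j, ∑ i, v i j = 0) :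
    (Fintype.card I : R) * ((Fintype.card I : R) - 1) * ((Fintype.card I : R) - 2) *
    (line a b v).coeff 1 = 0 := by
  have h := coeff_mul hab v hra hrb hca hcb 1
  have h2 := E_one v hr hc
  push_cast at h
  linear_combination (Fintype.card I : R) * h - h2

theorem coeff_two_mul : ((Fintype.card I : R) - 2) * ((Fintype.card I : R) - 3) *
    (line a b v).coeff 2 = 0 := by
  have h := coeff_mul hab v hra hrb hca hcb 2
  push_cast at h
  linear_combination h

theorem coeff_three_mul (hr : ∀ i, ∑ j, v i j = 0) (hc : ∀ j, ∑ i, v i j = 0) :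
    2 * (Fintype.card I : R) * ((Fintype.card I : R) - 1) * ((Fintype.card I : R) - 2) *
      ((Fintype.card I : R) - 3) * ((Fintype.card I : R) - 4) * (line a b v).coeff 3 =
      4 * ((Fintype.card I).factorial : R) * ∑ i, ∑ j, v i j ^ 3 := by
  have h := coeff_mul hab v hra hrb hca hcb 3
  have h2 := cube_identity v hr hc
  push_cast at h
  rw [← h2]
  linear_combination 2 * (Fintype.card I : R) * ((Fintype.card I : R) - 1) *
    ((Fintype.card I : R) - 2) * h

end Poly

end Pool.Agent.V7L.Dc
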