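import Pool.Agent.V7L.Dc.Kneser

/-!
# Determinants of matrices close to a diagonal matrix with few zeros
-/

set_option autoImplicit false
set_option linter.unusedSectionVars false

namespace Pool.Agent.V7L.Dc

open Finset Module

section Scale

variable {A : Type*} [CommRing A] {J : Type*} [Fintype J] [DecidableEq J]

theorem dvd_det (M : Matrix J J A) (Z : Finset J) (t : A) (h0 : ∀ i ∈ Z, ∀ j ∈ Z, M i j = 0)
    (h1 : ∀ i ∈ Z, ∀ j, t ∣ M i j) (h2 : ∀ i, ∀ j ∈ Z, t ∣ M i j) :
    t ^ (2 * Z.card) ∣ M.det := by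
  classical
  have h3 : ∀ i j, ∃ q, (i ∈ Z ∨ j ∈ Z) → M i j = t * q := by
    intro i j
    by_cases h : i ∈ Z ∨ j ∈ Z
    · rcases h with h | h
      · obtain ⟨q, hq⟩ := h1 i h j
        exact ⟨q, fun _ => hq⟩
      · obtain ⟨q, hq⟩ := h2 i j h
        exact ⟨q, fun _ => hq⟩
    · exact ⟨0, fun h' => absurd h' h⟩
  choose q hq using h3
  let τ : J → A := fun i => if i ∈ Z then t else 1
  let B : Matrix J J A := Matrix.of fun i j =>
    if i ∈ Z ∧ j ∈ Z then 0 else if i ∈ Z ∨ j ∈ Z then q i j else M i j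
  have h4 : M = Matrix.of fun i j => τ i * (Matrix.of fun i j => τ j * B i j) i j := by
    ext i j
    simp only [Matrix.of_apply, τ, B]
    by_cases hi : i ∈ Z
    · by_cases hj : j ∈ Z
      · simp [hi, hj, h0 i hi j hj]
      · simp [hi, hj, hq i j (Or.inl hi)]
    · by_cases hj : j ∈ Z
      · simp [hi, hj, hq i j (Or.inr hj)]
      · simp [hi, hj]
  rw [h4, Matrix.det_mul_column, Matrix.det_mul_row]
  have h5 : ∏ i, τ i = t ^ Z.card := by
    simp [τ, Finset.prod_ite]
  rw [h5]
  refine ⟨B.det, ?_⟩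
  ring

end Scale

section Arrow

variable {K : Type*} [Field K] {J : Type*} [Fintype J] [DecidableEq J]

theorem arrow (A : Matrix J J K) (i₀ : J) (D : J → K) (hD : ∀ j, j ≠ i₀ → D j ≠ 0)
    (hA : ∀ j k, j ≠ i₀ → k ≠ i₀ → A j k = if j = k then D j else 0) (hdet : A.det = 0) :
    A i₀ i₀ = ∑ j ∈ univ.erase i₀, A i₀ j * A j i₀ / D j := by
  obtain ⟨y, hy, hy0⟩ := Matrix.exists_mulVec_eq_zero_iff.2 hdet
  have h1 : ∀ j, A j i₀ * y i₀ + ∑ k ∈ univ.erase i₀, A j k * y k = 0 := by
    intro j
    have h2 := congrFun hy0 j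
    rw [Matrix.mulVec, dotProduct, ← Finset.add_sum_erase _ _ (mem_univ i₀)] at h2
    exact h2
  have h2 : ∀ j, j ≠ i₀ → A j i₀ * y i₀ + D j * y j = 0 := by
    intro j hj
    have h3 := h1 j
    rw [Finset.sum_eq_single j, hA j j hj hj, if_pos rfl] at h3
    · exact h3
    · intro k hk hkj
      rw [hA j k hj (ne_of_mem_erase hk), if_neg (Ne.symm hkj), zero_mul]
    · intro h
      exact absurd (mem_erase.2 ⟨hj, mem_univ _⟩) h
  have h3 : ∀ j, j ≠ i₀ → y j = -(A j i₀ / D j) * y i₀ := by
    intro j hj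
    have h4 := h2 j hj
    field_simp [hD j hj]
    linear_combination h4
  have h4 : y i₀ ≠ 0 := by
    intro h
    apply hy
    funext j
    by_cases hj : j = i₀
    · rw [hj, h]
      rfl
    · rw [h3 j hj, h, mul_zero]
      rfl
  have h5 := h1 i₀
  have h6 : ∑ k ∈ univ.erase i₀, A i₀ k * y k =
      -(∑ j ∈ univ.erase i₀, A i₀ j * A j i₀ / D j) * y i₀ := by
    rw [← Finset.sum_neg_distrib, Finset.sum_mul]
    refine Finset.sum_congr rfl fun k hk => ?_
    rw [h3 k (ne_of_mem_erase hk)]
    ring
  rw [h6] at h5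
  have h7 : (A i₀ i₀ - ∑ j ∈ univ.erase i₀, A i₀ j * A j i₀ / D j) * y i₀ = 0 := by
    linear_combination h5
  exact sub_eq_zero.1 ((mul_eq_zero.1 h7).resolve_right h4)

open Polynomial in
theorem one_zero (D : J → K) (Y : Matrix J J K) (i₀ : J) (h0 : D i₀ = 0)
    (hD : ∀ j, j ≠ i₀ → D j ≠ 0)
    (h : (X : K[X]) ^ 3 ∣ ((Matrix.diagonal D).map C + (X : K[X]) • Y.map C).det) :
    Y i₀ i₀ = 0 ∧ ∑ j ∈ univ.erase i₀, Y i₀ j * Y j i₀ / D j = 0 := by
  set M : Matrix J J K[X] := (Matrix.diagonal D).map C + (X : K[X]) • Y.map C with hM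
  have hMe : ∀ i j, M i j = C (Matrix.diagonal D i j) + X * C (Y i j) := fun i j => rfl
  have hX : (X : K[X]) ≠ 0 := Polynomial.X_ne_zero
  let τ : J → K[X] := fun i => if i = i₀ then X else 1
  have hτ : ∏ i, τ i = X := by simp [τ]
  have hev : ∀ N : Matrix J J K[X], X ∣ N.det → (N.map (Polynomial.eval 0)).det = 0 := by
    intro N hN
    have h1 : (N.map (Polynomial.eval 0)).det = Polynomial.eval 0 N.det := by
      have := RingHom.map_det (Polynomial.evalRingHom (0 : K)) N
      rw [Polynomial.coe_evalRingHom] at this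
      rw [this]
      rfl
    rw [h1]
    obtain ⟨q, hq⟩ := hN
    rw [hq]
    simp
  -- first step
  let M' : Matrix J J K[X] := Matrix.of fun i j => if i = i₀ then C (Y i₀ j) else M i j
  have h1 : M = Matrix.of fun i j => τ i * M' i j := by
    ext1 i j
    simp only [Matrix.of_apply, τ, M']
    by_cases hi : i = i₀
    · rw [if_pos hi, if_pos hi, hMe, hi]
      by_cases hj : j = i₀
      · rw [hj, Matrix.diagonal_apply_eq, h0]
        simp
      · rw [Matrix.diagonal_apply_ne _ (Ne.symm hj)]
        simp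
    · rw [if_neg hi, if_neg hi, one_mul]
  have h2 : M.det = X * M'.det := by
    conv_lhs => rw [h1]
    rw [Matrix.det_mul_column, hτ]
  have h3 : (X : K[X]) ^ 2 ∣ M'.det := by
    rw [h2, pow_succ', mul_dvd_mul_iff_left hX] at h
    exact h
  have h4 := hev M' (dvd_trans (dvd_pow_self X two_ne_zero) h3)
  have h5 := arrow (M'.map (Polynomial.eval 0)) i₀ D hD (by
    intro j k hj hk
    rw [Matrix.map_apply]
    simp only [M', Matrix.of_apply, if_neg hj, hMe, Matrix.diagonal_apply]
    split_ifs <;> simp) h4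
  have h6 : Y i₀ i₀ = 0 := by
    have h7 : (M'.map (Polynomial.eval 0)) i₀ i₀ = Y i₀ i₀ := by
      rw [Matrix.map_apply]
      simp [M']
    rw [← h7, h5]
    refine Finset.sum_eq_zero fun j hj => ?_
    have h8 : (M'.map (Polynomial.eval 0)) j i₀ = 0 := by
      rw [Matrix.map_apply]
      simp only [M', Matrix.of_apply, if_neg (ne_of_mem_erase hj), hMe,
        Matrix.diagonal_apply_ne _ (ne_of_mem_erase hj)]
      simp
    rw [h8, mul_zero, zero_div]
  refine ⟨h6, ?_⟩
  -- second step
  let M'' : Matrix J J K[X] := Matrix.of fun i j =>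
    if i = i₀ then C (Y i₀ j) else if j = i₀ then C (Y i i₀) else M i j
  have h7 : M' = Matrix.of fun i j => τ j * M'' i j := by
    ext1 i j
    simp only [Matrix.of_apply, τ, M', M'']
    by_cases hi : i = i₀
    · rw [if_pos hi, if_pos hi]
      by_cases hj : j = i₀
      · rw [if_pos hj, hj, h6]
        simp
      · rw [if_neg hj, one_mul]
    · rw [if_neg hi, if_neg hi]
      by_cases hj : j = i₀
      · rw [if_pos hj, if_pos hj, hMe, hj, Matrix.diagonal_apply_ne _ hi]
        simp
      · rw [if_neg hj, if_neg hj, one_mul]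
  have h8 : M'.det = X * M''.det := by
    conv_lhs => rw [h7]
    rw [Matrix.det_mul_row, hτ]
  have h9 : (X : K[X]) ∣ M''.det := by
    rw [h8, pow_two, mul_dvd_mul_iff_left hX] at h3
    exact h3
  have h10 := hev M'' h9
  have h11 := arrow (M''.map (Polynomial.eval 0)) i₀ D hD (by
    intro j k hj hk
    rw [Matrix.map_apply]
    simp only [M'', Matrix.of_apply, if_neg hj, if_neg hk, hMe, Matrix.diagonal_apply]
    split_ifs <;> simp) h10
  have h12 : (M''.map (Polynomial.eval 0)) i₀ i₀ = Y i₀ i₀ := by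
    rw [Matrix.map_apply]
    simp [M'']
  rw [h12, h6] at h11
  rw [h11]
  refine Finset.sum_congr rfl fun j hj => ?_
  have hj' := ne_of_mem_erase hj
  have h13 : (M''.map (Polynomial.eval 0)) i₀ j = Y i₀ j := by
    rw [Matrix.map_apply]
    simp [M'']
  have h14 : (M''.map (Polynomial.eval 0)) j i₀ = Y j i₀ := by
    rw [Matrix.map_apply]
    simp [M'', hj']
  rw [h13, h14]

/-- An isotropic space of pairs has dimension at most `|J| - 1`. -/
theorem iso_finrank {V : Type*} [AddCommGroup V] [Module K V] [FiniteDimensional K V]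
    (D : J → K) (i₀ : J) (hD : ∀ j, j ≠ i₀ → D j ≠ 0) (r c : V →ₗ[K] (J → K))
    (hr : ∀ v, r v i₀ = 0) (hc : ∀ v, c v i₀ = 0) (h2 : (2 : K) ≠ 0)
    (h : ∀ v, ∑ j ∈ univ.erase i₀, r v j * c v j / D j = 0) :
    finrank K V + 1 ≤ finrank K (LinearMap.ker (r.prod c)) + Fintype.card J := by
  classical
  -- polarise
  have hpol : ∀ v w, ∑ j ∈ univ.erase i₀, (r v j * c w j + r w j * c v j) / D j = 0 := by
    intro v w
    have h3 := h (v + w)
    rw [map_add, map_add] at h3
    have h4 : ∑ j ∈ univ.erase i₀, (r v + r w) j * (c v + c w) j / D j =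
        ∑ j ∈ univ.erase i₀, r v j * c v j / D j + ∑ j ∈ univ.erase i₀, r w j * c w j / D j +
        ∑ j ∈ univ.erase i₀, (r v j * c w j + r w j * c v j) / D j := by
      rw [← Finset.sum_add_distrib, ← Finset.sum_add_distrib]
      refine Finset.sum_congr rfl fun j _ => ?_
      simp only [Pi.add_apply]
      ring
    rw [h4, h v, h w, zero_add, zero_add] at h3
    exact h3
  let Ω := {j : J // j ≠ i₀} ⊕ {j : J // j ≠ i₀}
  let f : V →ₗ[K] (Ω → K) :=
    { toFun := fun v => Sum.elim (fun j => r v j) (fun j => c v j)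
      map_add' := by
        intro v w
        funext ω
        rcases ω with j | j <;> simp
      map_smul' := by
        intro a v
        funext ω
        rcases ω with j | j <;> simp }
  let g : V →ₗ[K] (Ω → K) :=
    { toFun := fun v => Sum.elim (fun j => c v j / D j) (fun j => r v j / D j)
      map_add' := by
        intro v w
        funext ω
        rcases ω with j | j <;> simp [add_div]
      map_smul' := by
        intro a v
        funext ω
        rcases ω with j | j <;> simp [mul_div_assoc] }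
  have hkf : LinearMap.ker f = LinearMap.ker (r.prod c) := by
    ext v
    rw [LinearMap.mem_ker, LinearMap.mem_ker, show (r.prod c) v = (r v, c v) from rfl,
      Prod.mk_eq_zero]
    constructor
    · intro h3
      constructor
      · funext j
        by_cases hj : j = i₀
        · rw [hj, hr]; rfl
        · exact congrFun h3 (Sum.inl ⟨j, hj⟩)
      · funext j
        by_cases hj : j = i₀
        · rw [hj, hc]; rfl
        · exact congrFun h3 (Sum.inr ⟨j, hj⟩)
    · rintro ⟨h3, h4⟩
      funext ω
      rcases ω with j | j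
      · exact congrFun h3 j
      · exact congrFun h4 j
  have hkg : LinearMap.ker g = LinearMap.ker (r.prod c) := by
    ext v
    rw [LinearMap.mem_ker, LinearMap.mem_ker, show (r.prod c) v = (r v, c v) from rfl,
      Prod.mk_eq_zero]
    constructor
    · intro h3
      constructor
      · funext j
        by_cases hj : j = i₀
        · rw [hj, hr]; rfl
        · have h4 : r v j / D j = 0 := congrFun h3 (Sum.inr ⟨j, hj⟩)
          exact (div_eq_zero_iff.1 h4).resolve_right (hD j hj)
      · funext j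
        by_cases hj : j = i₀
        · rw [hj, hc]; rfl
        · have h4 : c v j / D j = 0 := congrFun h3 (Sum.inl ⟨j, hj⟩)
          exact (div_eq_zero_iff.1 h4).resolve_right (hD j hj)
    · rintro ⟨h3, h4⟩
      funext ω
      rcases ω with j | j
      · change c v j / D j = 0
        rw [h4]
        simp
      · change r v j / D j = 0
        rw [h3]
        simp
  have h3 := orth_finrank (LinearMap.range f) (LinearMap.range g) (by
    rintro _ ⟨v, rfl⟩ _ ⟨w, rfl⟩
    rw [Fintype.sum_sum_type, ← Finset.sum_add_distrib, ← hpol v w]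
    have h4 : ∀ F : J → K, ∑ j ∈ univ.erase i₀, F j = ∑ j : {j : J // j ≠ i₀}, F j := by
      intro F
      rw [← Finset.sum_subtype]
      intro x
      simp
    rw [h4]
    refine Finset.sum_congr rfl fun j _ => ?_
    change r v j * (c w j / D j) + c v j * (r w j / D j) = _
    ring)
  have h4 := LinearMap.finrank_range_add_finrank_ker f
  have h5 := LinearMap.finrank_range_add_finrank_ker g
  rw [hkf] at h4
  rw [hkg] at h5
  have h6 : Fintype.card Ω = 2 * (Fintype.card J - 1) := by
    have h7 : Fintype.card {j : J // j ≠ i₀} = Fintype.card J - 1 := by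
      rw [Fintype.card_subtype_compl]
      simp
    rw [Fintype.card_sum, h7]
    ring
  have h7 : 0 < Fintype.card J := Fintype.card_pos_iff.2 ⟨i₀⟩
  omega

end Arrow

section Support

variable {K : Type*} [Field K] {Ω : Type*} [Fintype Ω]

/-- If the products of two elements of `W` are orthogonal to `V`, then `dim W + dim V` is at
most the number of points. -/
theorem prod_orth (W V : Submodule K (Ω → K))
    (h : ∀ w ∈ W, ∀ w' ∈ W, ∀ v ∈ V, ∑ p, w p * w' p * v p = 0) :
    finrank K W + finrank K V ≤ Fintype.card Ω := by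
  classical
  -- an element of maximal support
  obtain ⟨w₀, hw₀, hmax⟩ : ∃ w₀ ∈ W, ∀ w ∈ W,
      (univ.filter fun p => w p ≠ 0).card ≤ (univ.filter fun p => w₀ p ≠ 0).card := by
    have hex : ∃ k, ∃ w ∈ W, (univ.filter fun p => w p ≠ 0).card = k := ⟨_, 0, W.zero_mem, rfl⟩
    have hbd : ∀ k, (∃ w ∈ W, (univ.filter fun p => w p ≠ 0).card = k) → k ≤ Fintype.card Ω := by
      rintro k ⟨w, _, rfl⟩
      exact Finset.card_le_univ _
    obtain ⟨w, hw, hk⟩ := Nat.findGreatest_spec (P := fun k => ∃ w ∈ W,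
      (univ.filter fun p => w p ≠ 0).card = k) (n := Fintype.card Ω)
      (hbd _ hex.choose_spec) hex.choose_spec
    refine ⟨w, hw, fun w' hw' => ?_⟩
    rw [hk]
    exact Nat.le_findGreatest (hbd _ ⟨w', hw', rfl⟩) ⟨w', hw', rfl⟩
  have hinj : ∀ w ∈ W, w₀ * w = 0 → w = 0 := by
    intro w hw h0
    by_contra hne
    obtain ⟨p, hp⟩ : ∃ p, w p ≠ 0 := by
      by_contra hno
      push Not at hno
      exact hne (funext hno)
    have h1 := hmax (w₀ + w) (W.add_mem hw₀ hw)
    have h2 : (univ.filter fun p => w₀ p ≠ 0) ⊂ (univ.filter fun p => (w₀ + w) p ≠ 0) := by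
      rw [Finset.ssubset_iff_of_subset]
      · refine ⟨p, ?_, ?_⟩
        · have h3 : w₀ p * w p = 0 := congrFun h0 p
          have h4 := (mul_eq_zero.1 h3).resolve_right hp
          simp [h4, hp]
        · have h3 : w₀ p * w p = 0 := congrFun h0 p
          have h4 := (mul_eq_zero.1 h3).resolve_right hp
          simp [h4]
      · intro q hq
        have hq' : w₀ q ≠ 0 := (mem_filter.1 hq).2
        have h3 : w₀ q * w q = 0 := congrFun h0 q
        have h4 := (mul_eq_zero.1 h3).resolve_left hq'
        simp [h4, hq']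
    exact absurd h1 (not_le.2 (Finset.card_lt_card h2))
  let φ : W →ₗ[K] (Ω → K) := (mulBy w₀).comp W.subtype
  have hφ : Function.Injective φ := by
    rw [injective_iff_map_eq_zero]
    intro w hw
    exact Subtype.ext (hinj w w.2 hw)
  have h1 := LinearMap.finrank_range_of_inj hφ
  have h2 := orth_finrank (LinearMap.range φ) V (by
    rintro _ ⟨w, rfl⟩ v hv
    exact h w₀ hw₀ w w.2 v hv)
  omega

end Support

end Pool.Agent.V7L.Dc
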