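import Mathlib

/-!
# Products of subspaces of `Ω → K`

A Kneser type theorem for the pointwise product, and its consequence: a space `A` of functions on a
finite set `Ω` over a field of characteristic zero with `∑ a = ∑ a b = ∑ a b c = 0` for all
`a, b, c ∈ A` has dimension less than `|Ω| / 3`.
-/

set_option autoImplicit false
set_option linter.unusedSectionVars false

namespace Pool.Agent.V7L.Dc

open Module Finset

section Orth

variable {K : Type*} [Field K] {Ω : Type*} [Fintype Ω]

theorem orth_finrank (V W : Submodule K (Ω → K))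
    (h : ∀ v ∈ V, ∀ w ∈ W, ∑ ω, v ω * w ω = 0) :
    finrank K V + finrank K W ≤ Fintype.card Ω := by
  classical
  let φ : (Ω → K) →ₗ[K] Module.Dual K (Ω → K) :=
    { toFun := fun w =>
        { toFun := fun v => ∑ ω, v ω * w ω
          map_add' := by
            intro x y
            simp only [Pi.add_apply, add_mul, sum_add_distrib]
          map_smul' := by
            intro c x
            simp only [Pi.smul_apply, smul_eq_mul, RingHom.id_apply, mul_sum, mul_assoc] }
      map_add' := by
        intro x y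
        ext v
        simp [mul_add, sum_add_distrib]
      map_smul' := by
        intro c x
        ext v
        simp [mul_left_comm, mul_sum] }
  have hφ : Function.Injective φ := by
    rw [injective_iff_map_eq_zero]
    intro w hw
    funext ω
    have h1 : φ w (Pi.single ω 1) = 0 := by rw [hw]; rfl
    have h2 : φ w (Pi.single ω 1) = ∑ ω', (Pi.single ω 1 : Ω → K) ω' * w ω' := rfl
    rw [h2] at h1
    simpa [Pi.single_apply] using h1
  have h1 : W.map φ ≤ V.dualAnnihilator := by
    rintro _ ⟨w, hw, rfl⟩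
    rw [Submodule.mem_dualAnnihilator]
    intro v hv
    exact h v hv w hw
  have h2 : finrank K (W.map φ) = finrank K W :=
    (LinearEquiv.finrank_eq (Submodule.equivMapOfInjective φ hφ W)).symm
  have h3 := Submodule.finrank_mono h1
  have h4 := Subspace.finrank_add_finrank_dualAnnihilator_eq V
  have h5 : finrank K (Ω → K) = Fintype.card Ω := by simp
  omega

end Orth

section Transform

variable {K : Type*} [Field K] {Ω : Type*} [Fintype Ω]

/-- Multiplication by a function. -/
def mulBy (e : Ω → K) : (Ω → K) →ₗ[K] (Ω → K) where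
  toFun x := e * x
  map_add' x y := mul_add e x y
  map_smul' c x := by
    funext ω
    simp [mul_left_comm]

theorem mulBy_apply (e x : Ω → K) : mulBy e x = e * x := rfl

theorem mulBy_injective {e : Ω → K} (he : ∀ ω, e ω ≠ 0) : Function.Injective (mulBy e) := by
  intro x y h
  funext ω
  exact mul_left_cancel₀ (he ω) (congrFun h ω)

theorem finrank_map_mulBy {e : Ω → K} (he : ∀ ω, e ω ≠ 0) (V : Submodule K (Ω → K)) :
    finrank K (V.map (mulBy e)) = finrank K V :=
  (LinearEquiv.finrank_eq (Submodule.equivMapOfInjective _ (mulBy_injective he) V)).symm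

/-- If `K` is infinite, every element can be moved to an invertible one. -/
theorem exists_shift [Infinite K] (b e : Ω → K) (he : ∀ ω, e ω ≠ 0) :
    ∃ c : K, ∀ ω, (b + c • e) ω ≠ 0 := by
  classical
  obtain ⟨c, hc⟩ := Infinite.exists_notMem_finset (univ.image fun ω => -(b ω) / e ω)
  refine ⟨c, fun ω h => hc ?_⟩
  refine mem_image.2 ⟨ω, mem_univ _, ?_⟩
  rw [Pi.add_apply, Pi.smul_apply, smul_eq_mul] at h
  rw [div_eq_iff (he ω)]
  linear_combination -h

theorem transform [Infinite K] (n : ℕ) : ∀ A B : Submodule K (Ω → K), finrank K A = n →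
    (1 : Ω → K) ∈ A → (∃ e ∈ B, ∀ ω, e ω ≠ 0) →
    ∃ (H : Subalgebra K (Ω → K)) (V : Submodule K (Ω → K)), B ≤ V ∧ V ≤ A * B ∧
      (∀ h ∈ H, ∀ v ∈ V, h * v ∈ V) ∧ finrank K A + finrank K B ≤ finrank K V + finrank K H := by
  induction n using Nat.strong_induction_on with
  | _ n ih =>
  intro A B hA h1 hB
  by_cases hcase : ∀ e ∈ B, (∀ ω, e ω ≠ 0) → ∀ a ∈ A, a * e ∈ B
  · -- `A B ⊆ B`
    obtain ⟨e₀, he₀, hu⟩ := hB
    have hAB : ∀ a ∈ A, ∀ b ∈ B, a * b ∈ B := by
      intro a ha b hb
      obtain ⟨c, hc⟩ := exists_shift b e₀ hu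
      have h2 := hcase (b + c • e₀) (B.add_mem hb (B.smul_mem c he₀)) hc a ha
      have h3 := hcase e₀ he₀ hu a ha
      have h4 : a * b = a * (b + c • e₀) - c • (a * e₀) := by
        rw [mul_add, mul_smul_comm, add_sub_cancel_right]
      rw [h4]
      exact B.sub_mem h2 (B.smul_mem c h3)
    refine ⟨Algebra.adjoin K (A : Set (Ω → K)), B, le_rfl, ?_, ?_, ?_⟩
    · intro b hb
      have := Submodule.mul_mem_mul h1 hb
      rwa [one_mul] at this
    · intro h hh
      induction hh using Algebra.adjoin_induction with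
      | mem x hx => exact fun v hv => hAB x hx v hv
      | algebraMap r =>
        intro v hv
        rw [← Algebra.smul_def]
        exact B.smul_mem r hv
      | add x y _ _ hx hy =>
        intro v hv
        rw [add_mul]
        exact B.add_mem (hx v hv) (hy v hv)
      | mul x y _ _ hx hy =>
        intro v hv
        rw [mul_assoc]
        exact hx _ (hy v hv)
    · have h2 : A ≤ Subalgebra.toSubmodule (Algebra.adjoin K (A : Set (Ω → K))) :=
        fun x hx => Algebra.subset_adjoin hx
      have h3 := Submodule.finrank_mono h2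
      have h4 : finrank K (Subalgebra.toSubmodule (Algebra.adjoin K (A : Set (Ω → K)))) =
        finrank K (Algebra.adjoin K (A : Set (Ω → K))) := rfl
      omega
  · push Not at hcase
    obtain ⟨e, heB, hu, a, haA, hae⟩ := hcase
    set A' : Submodule K (Ω → K) := A ⊓ B.comap (mulBy e) with hA'
    set B' : Submodule K (Ω → K) := B ⊔ A.map (mulBy e) with hB'
    have hmap : A'.map (mulBy e) = A.map (mulBy e) ⊓ B := by
      ext x
      constructor
      · rintro ⟨y, hy, rfl⟩
        exact ⟨⟨y, hy.1, rfl⟩, hy.2⟩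
      · rintro ⟨⟨y, hy, rfl⟩, hx⟩
        exact ⟨y, ⟨hy, hx⟩, rfl⟩
    have hdim : finrank K A' + finrank K B' = finrank K A + finrank K B := by
      have h2 := Submodule.finrank_sup_add_finrank_inf_eq B (A.map (mulBy e))
      rw [inf_comm, ← hmap, finrank_map_mulBy hu, finrank_map_mulBy hu] at h2
      rw [← hB'] at h2
      omega
    have hlt : finrank K A' < n := by
      rw [← hA]
      refine Submodule.finrank_lt_finrank_of_lt (lt_of_le_of_ne inf_le_left ?_)
      intro h2
      have h3 : a ∈ A' := by rw [h2]; exact haA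
      have h4 : e * a ∈ B := h3.2
      rw [mul_comm] at h4
      exact hae h4
    obtain ⟨H, V, hBV, hVAB, hHV, hd⟩ := ih _ hlt A' B' rfl
      ⟨h1, by
        change e * 1 ∈ B
        rw [mul_one]
        exact heB⟩ ⟨e, Submodule.mem_sup_left heB, hu⟩
    refine ⟨H, V, le_trans le_sup_left hBV, hVAB.trans ?_, hHV, by omega⟩
    rw [Submodule.mul_le]
    intro x hx y hy
    obtain ⟨b, hb, _, ⟨a', ha', rfl⟩, rfl⟩ := Submodule.mem_sup.1 hy
    rw [mul_add]
    refine Submodule.add_mem _ (Submodule.mul_mem_mul hx.1 hb) ?_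
    have h2 : x * mulBy e a' = a' * (e * x) := by
      rw [mulBy_apply]
      ring
    rw [h2]
    exact Submodule.mul_mem_mul ha' hx.2

end Transform

section Finite

variable {K : Type*} [Field K] {Ω : Type*} [Fintype Ω]

theorem algebra_le (H H' : Subalgebra K (Ω → K))
    (h : ∀ ω ω', (∀ x ∈ H, x ω = x ω') → ∀ x ∈ H', x ω = x ω') : H' ≤ H := by
  classical
  -- the indicator functions of the classes of `H` lie in `H`
  have hind : ∀ ω, (fun ω' => if ∀ x ∈ H, x ω = x ω' then (1 : K) else 0) ∈ H := by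
    intro ω
    have h1 : ∀ ω', ∃ y ∈ H, (∀ x ∈ H, x ω = x ω') ∨ (y ω = 1 ∧ y ω' = 0) := by
      intro ω'
      by_cases h2 : ∀ x ∈ H, x ω = x ω'
      · exact ⟨0, H.zero_mem, Or.inl h2⟩
      · push Not at h2
        obtain ⟨x, hx, hne⟩ := h2
        refine ⟨(x ω - x ω')⁻¹ • (x - algebraMap K _ (x ω')), ?_, Or.inr ⟨?_, ?_⟩⟩
        · exact H.smul_mem (H.sub_mem hx (H.algebraMap_mem _)) _
        · simp [sub_ne_zero.2 hne]
        · simp
    choose y hy hy' using h1
    have h3 : (∏ ω' ∈ univ.filter (fun ω' => ¬ ∀ x ∈ H, x ω = x ω'), y ω') ∈ H :=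
      H.prod_mem fun ω' _ => hy ω'
    convert h3 using 1
    funext ω₁
    rw [Finset.prod_apply]
    split_ifs with h4
    · symm
      refine Finset.prod_eq_one fun ω' hω' => ?_
      rw [← h4 _ (hy ω')]
      exact ((hy' ω').resolve_left (mem_filter.1 hω').2).1
    · symm
      refine Finset.prod_eq_zero (mem_filter.2 ⟨mem_univ ω₁, h4⟩) ?_
      exact ((hy' ω₁).resolve_left h4).2
  intro z hz
  -- `z` is a combination of them: choose representatives
  let s : Setoid Ω :=
    { r := fun ω ω' => ∀ x ∈ H, x ω = x ω'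
      iseqv := ⟨fun _ _ _ => rfl, fun h1 x hx => (h1 x hx).symm,
        fun h1 h2 x hx => (h1 x hx).trans (h2 x hx)⟩ }
  have h5 : z = ∑ q : Quotient s, z q.out •
      (fun ω' => if ∀ x ∈ H, x q.out = x ω' then (1 : K) else 0) := by
    funext ω₁
    rw [Finset.sum_apply, Finset.sum_eq_single (Quotient.mk s ω₁)]
    · have h6 : ∀ x ∈ H, x (Quotient.mk s ω₁).out = x ω₁ := Quotient.mk_out (s := s) ω₁
      rw [Pi.smul_apply, if_pos h6, smul_eq_mul, mul_one]
      exact (h _ _ h6 z hz).symm
    · intro q _ hq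
      rw [Pi.smul_apply, if_neg, smul_zero]
      intro h6
      apply hq
      rw [← q.out_eq]
      exact Quotient.sound (s := s) h6
    · intro h6
      exact absurd (mem_univ _) h6
  rw [h5]
  exact H.sum_mem fun q _ => H.smul_mem (hind _) _

theorem finite_subalgebra : Finite (Subalgebra K (Ω → K)) := by
  classical
  refine Finite.of_injective
    (fun H : Subalgebra K (Ω → K) => ({p : Ω × Ω | ∀ x ∈ H, x p.1 = x p.2} : Set (Ω × Ω))) ?_
  intro H H' h
  have h1 : ∀ ω ω', (∀ x ∈ H, x ω = x ω') ↔ (∀ x ∈ H', x ω = x ω') := by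
    intro ω ω'
    have := Set.ext_iff.1 h (ω, ω')
    exact this
  exact le_antisymm (algebra_le H' H fun ω ω' h2 => (h1 ω ω').2 h2)
    (algebra_le H H' fun ω ω' h2 => (h1 ω ω').1 h2)

end Finite

section Kneser

variable {K : Type*} [Field K] [Infinite K] {Ω : Type*} [Fintype Ω] [Nonempty Ω]

/-- A weak form: some algebra of large dimension stabilises `C C`. -/
theorem weak (C : Submodule K (Ω → K)) (hC : ∃ e ∈ C, ∀ ω, e ω ≠ 0) :
    ∃ H : Subalgebra K (Ω → K), (∀ h ∈ H, ∀ x ∈ C * C, h * x ∈ C * C) ∧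
      2 * finrank K C ≤ finrank K (C * C : Submodule K (Ω → K)) + finrank K H := by
  classical
  obtain ⟨e₀, he₀, hu₀⟩ := hC
  have h1 : ∀ c : Ω → K, ∃ (H : Subalgebra K (Ω → K)) (V : Submodule K (Ω → K)),
      c ∈ C → (∀ ω, c ω ≠ 0) → C ≤ V ∧ V.map (mulBy c) ≤ C * C ∧
      (∀ h ∈ H, ∀ v ∈ V, h * v ∈ V) ∧ 2 * finrank K C ≤ finrank K V + finrank K H := by
    intro c
    by_cases hc : c ∈ C ∧ ∀ ω, c ω ≠ 0
    · have hinv : ∀ ω, (c⁻¹) ω ≠ 0 := fun ω => inv_ne_zero (hc.2 ω)
      obtain ⟨H, V, h2, h3, h4, h5⟩ := transform _ (C.map (mulBy c⁻¹)) C rfl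
        ⟨c, hc.1, by
          funext ω
          exact inv_mul_cancel₀ (hc.2 ω)⟩ ⟨e₀, he₀, hu₀⟩
      refine ⟨H, V, fun _ _ => ⟨h2, ?_, h4, ?_⟩⟩
      · rintro _ ⟨v, hv, rfl⟩
        have h6 := h3 hv
        refine Submodule.mul_induction_on (C := fun x => mulBy c x ∈ C * C) h6 ?_ ?_
        · rintro _ ⟨a, ha, rfl⟩ b hb
          have h7 : mulBy c (mulBy c⁻¹ a * b) = a * b := by
            funext ω
            simp only [mulBy_apply, Pi.mul_apply, Pi.inv_apply]
            rw [← mul_assoc, ← mul_assoc, mul_inv_cancel₀ (hc.2 ω), one_mul]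
          rw [h7]
          exact Submodule.mul_mem_mul ha hb
        · intro x y hx hy
          rw [map_add]
          exact Submodule.add_mem _ hx hy
      · rw [finrank_map_mulBy hinv] at h5
        omega
    · exact ⟨⊥, ⊥, fun h2 h3 => absurd ⟨h2, h3⟩ hc⟩
  choose H V hHV using h1
  have : Finite (Subalgebra K (Ω → K)) := finite_subalgebra
  -- the subspaces of `C`
  let p : (Subalgebra K (Ω → K)) ⊕ Ω → Submodule K C :=
    Sum.elim (fun G => Submodule.span K {c : C | (∀ ω, (c : Ω → K) ω ≠ 0) ∧ H c = G})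
      (fun ω => LinearMap.ker ((LinearMap.proj ω : (Ω → K) →ₗ[K] K).comp C.subtype))
  have hcov : ⋃ i, (p i : Set C) = Set.univ := by
    rw [Set.eq_univ_iff_forall]
    intro c
    rw [Set.mem_iUnion]
    by_cases hc : ∀ ω, (c : Ω → K) ω ≠ 0
    · exact ⟨Sum.inl (H c), Submodule.subset_span ⟨hc, rfl⟩⟩
    · push Not at hc
      obtain ⟨ω, hω⟩ := hc
      exact ⟨Sum.inr ω, hω⟩
  obtain ⟨i, hi⟩ := Subspace.exists_eq_top_of_iUnion_eq_univ hcov
  rcases i with G | ω
  · have htop : Submodule.span K {c : C | (∀ ω, (c : Ω → K) ω ≠ 0) ∧ H c = G} = ⊤ := hi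
    have hspan : ∀ (q : (Ω → K) → Prop), (∀ c ∈ C, (∀ ω, c ω ≠ 0) → H c = G → q c) →
        (∀ x y, q x → q y → q (x + y)) → q 0 → (∀ (a : K) x, q x → q (a • x)) →
        ∀ c ∈ C, q c := by
      intro q h2 h3 h4 h5 c hc
      have h6 : (⟨c, hc⟩ : C) ∈ Submodule.span K
          {c : C | (∀ ω, (c : Ω → K) ω ≠ 0) ∧ H c = G} := by
        rw [htop]
        exact Submodule.mem_top
      have h7 : ∀ x : C, x ∈ Submodule.span K {c : C | (∀ ω, (c : Ω → K) ω ≠ 0) ∧ H c = G} →
          q x := by
        intro x hx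
        induction hx using Submodule.span_induction with
        | mem x hx => exact h2 x x.2 hx.1 hx.2
        | zero => exact h4
        | add x y _ _ hx hy => exact h3 x y hx hy
        | smul a x _ hx => exact h5 a x hx
      exact h7 _ h6
    have hex : ∃ c ∈ C, (∀ ω, c ω ≠ 0) ∧ H c = G := by
      by_contra hno
      push Not at hno
      have h2 := hspan (fun c => c = 0) (fun c hc h3 h4 => absurd h4 (hno c hc h3))
        (fun x y hx hy => by rw [hx, hy, add_zero]) rfl (fun a x hx => by rw [hx, smul_zero]) e₀ he₀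
      exact hu₀ (Classical.arbitrary Ω) (congrFun h2 _)
    refine ⟨G, ?_, ?_⟩
    · intro h hh x hx
      refine Submodule.mul_induction_on (C := fun x => h * x ∈ C * C) hx ?_ ?_
      · intro a ha b hb
        refine hspan (fun a => h * (a * b) ∈ C * C) ?_ ?_ ?_ ?_ a ha
        · intro c hc h2 h3
          obtain ⟨h4, h5, h6, h7⟩ := hHV c hc h2
          have h8 : h * (c * b) = mulBy c (h * b) := by
            rw [mulBy_apply]
            ring
          rw [h8]
          exact h5 ⟨_, h6 h (by rw [h3]; exact hh) _ (h4 hb), rfl⟩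
        · intro x y hx hy
          have : h * ((x + y) * b) = h * (x * b) + h * (y * b) := by ring
          rw [this]
          exact Submodule.add_mem _ hx hy
        · simp
        · intro a x hx
          have : h * (a • x * b) = a • (h * (x * b)) := by
            simp only [smul_mul_assoc, mul_smul_comm]
          rw [this]
          exact Submodule.smul_mem _ _ hx
      · intro x y hx hy
        rw [mul_add]
        exact Submodule.add_mem _ hx hy
    · obtain ⟨c, hc, h2, h3⟩ := hex
      obtain ⟨h4, h5, h6, h7⟩ := hHV c hc h2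
      have h8 := Submodule.finrank_mono h5
      rw [finrank_map_mulBy h2] at h8
      rw [h3] at h7
      omega
  · exfalso
    have h2 : (⟨e₀, he₀⟩ : C) ∈ p (Sum.inr ω) := by
      rw [hi]
      exact Submodule.mem_top
    exact hu₀ ω h2

/-- The stabiliser of a subspace. -/
def stab (B : Submodule K (Ω → K)) : Subalgebra K (Ω → K) where
  carrier := {h | ∀ x ∈ B, h * x ∈ B}
  mul_mem' := by
    intro g h hg hh x hx
    rw [mul_assoc]
    exact hg _ (hh x hx)
  add_mem' := by
    intro g h hg hh x hx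
    rw [add_mul]
    exact B.add_mem (hg x hx) (hh x hx)
  algebraMap_mem' := by
    intro r x hx
    rw [← Algebra.smul_def]
    exact B.smul_mem r hx

/-- **Kneser's theorem** for the square of a subspace. -/
theorem kneser (C : Submodule K (Ω → K)) (hC : ∃ e ∈ C, ∀ ω, e ω ≠ 0) :
    2 * finrank K ((stab (C * C)).toSubmodule * C : Submodule K (Ω → K)) ≤
      finrank K (C * C : Submodule K (Ω → K)) + finrank K (stab (C * C)) := by
  set H := stab (C * C) with hH
  set D : Submodule K (Ω → K) := H.toSubmodule * C with hD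
  have hCD : C ≤ D := by
    intro c hc
    have := Submodule.mul_mem_mul (show (1 : Ω → K) ∈ H.toSubmodule from H.one_mem) hc
    rwa [one_mul] at this
  have hDD : D * D = C * C := by
    apply le_antisymm
    · have h1 : D * D = (H.toSubmodule * H.toSubmodule) * (C * C) := by
        rw [hD]
        ac_rfl
      rw [h1, Submodule.mul_le]
      intro h hh x hx
      have h2 : h ∈ H.toSubmodule := by
        have h3 : H.toSubmodule * H.toSubmodule ≤ H.toSubmodule := by
          rw [Submodule.mul_le]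
          intro a ha b hb
          exact H.mul_mem ha hb
        exact h3 hh
      exact h2 x hx
    · exact mul_le_mul' hCD hCD
  obtain ⟨e, he, hu⟩ := hC
  obtain ⟨H', h1, h2⟩ := weak D ⟨e, hCD he, hu⟩
  rw [hDD] at h1 h2
  have h3 : H'.toSubmodule ≤ H.toSubmodule := fun h hh => h1 h hh
  have h4 := Submodule.finrank_mono h3
  have h5 : finrank K H'.toSubmodule = finrank K H' := rfl
  have h6 : finrank K H.toSubmodule = finrank K H := rfl
  omega

end Kneser

section Main

variable {K : Type*} [Field K] [CharZero K] {Ω : Type*} [Fintype Ω] [Nonempty Ω]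

/-- A nonzero element of an algebra of functions is not orthogonal to the algebra. -/
theorem exists_pair (H : Subalgebra K (Ω → K)) (h : Ω → K) (hh : h ∈ H) (ω₀ : Ω) (h0 : h ω₀ ≠ 0) :
    ∃ g ∈ H, ∑ ω, g ω * h ω ≠ 0 := by
  classical
  refine ⟨∏ c ∈ (univ.image h).erase (h ω₀), (h - algebraMap K (Ω → K) c), ?_, ?_⟩
  · exact H.prod_mem fun c _ => H.sub_mem hh (H.algebraMap_mem c)
  · set P : K := ∏ c ∈ (univ.image h).erase (h ω₀), (h ω₀ - c) with hP
    have hP0 : P ≠ 0 := by
      rw [hP, Finset.prod_ne_zero_iff]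
      intro c hc
      exact sub_ne_zero.2 (Ne.symm (ne_of_mem_erase hc))
    have h1 : ∀ ω, (∏ c ∈ (univ.image h).erase (h ω₀), (h - algebraMap K (Ω → K) c)) ω * h ω =
        if h ω = h ω₀ then P * h ω₀ else 0 := by
      intro ω
      rw [Finset.prod_apply]
      split_ifs with h2
      · rw [h2, hP]
        congr 1
        refine Finset.prod_congr rfl fun c _ => ?_
        simp [h2]
      · have h3 : ∏ c ∈ (univ.image h).erase (h ω₀), (h - algebraMap K (Ω → K) c) ω = 0 := by
          refine Finset.prod_eq_zero (mem_erase.2 ⟨h2, mem_image_of_mem h (mem_univ ω)⟩) ?_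
          simp
        rw [h3, zero_mul]
    rw [Finset.sum_congr rfl fun ω _ => h1 ω, ← Finset.sum_filter, Finset.sum_const, nsmul_eq_mul]
    refine mul_ne_zero ?_ (mul_ne_zero hP0 h0)
    rw [Nat.cast_ne_zero]
    have h3 : ω₀ ∈ univ.filter fun ω => h ω = h ω₀ := mem_filter.2 ⟨mem_univ _, rfl⟩
    exact (Finset.card_pos.2 ⟨ω₀, h3⟩).ne'

/-- **A space of functions on `Ω` on which the first three power sums vanish identically has
dimension less than `|Ω| / 3`.** -/
theorem three (A : Submodule K (Ω → K)) (h1 : ∀ a ∈ A, ∑ ω, a ω = 0)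
    (h2 : ∀ a ∈ A, ∀ b ∈ A, ∑ ω, a ω * b ω = 0)
    (h3 : ∀ a ∈ A, ∀ b ∈ A, ∀ c ∈ A, ∑ ω, a ω * b ω * c ω = 0) :
    3 * finrank K A + 1 ≤ Fintype.card Ω := by
  classical
  set C : Submodule K (Ω → K) := 1 ⊔ A with hC
  have h1C : (1 : Ω → K) ∈ C := Submodule.mem_sup_left (Submodule.one_le.1 le_rfl)
  have hCC : ∀ x ∈ C * C, ∀ a ∈ A, ∑ ω, x ω * a ω = 0 := by
    intro x hx a ha
    refine Submodule.mul_induction_on (C := fun x => ∑ ω, x ω * a ω = 0) hx ?_ ?_
    · intro y hy z hz
      obtain ⟨y₀, hy₀, y₁, hy₁, rfl⟩ := Submodule.mem_sup.1 hy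
      obtain ⟨z₀, hz₀, z₁, hz₁, rfl⟩ := Submodule.mem_sup.1 hz
      obtain ⟨r, rfl⟩ := Submodule.mem_one.1 hy₀
      obtain ⟨s, rfl⟩ := Submodule.mem_one.1 hz₀
      have e1 : ∀ ω, ((algebraMap K (Ω → K) r + y₁) * (algebraMap K (Ω → K) s + z₁)) ω * a ω =
          r * s * a ω + r * (z₁ ω * a ω) + s * (y₁ ω * a ω) + y₁ ω * z₁ ω * a ω := by
        intro ω
        simp only [Pi.mul_apply, Pi.add_apply, Pi.algebraMap_apply, Algebra.algebraMap_self,
          RingHom.id_apply]
        ring
      rw [Finset.sum_congr rfl fun ω _ => e1 ω, sum_add_distrib, sum_add_distrib, sum_add_distrib,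
        ← mul_sum, ← mul_sum, ← mul_sum, h1 a ha, h2 z₁ hz₁ a ha, h2 y₁ hy₁ a ha,
        h3 y₁ hy₁ z₁ hz₁ a ha]
      ring
    · intro y z hy hz
      simp only [Pi.add_apply, add_mul, sum_add_distrib]
      rw [hy, hz, add_zero]
  set H := stab (C * C) with hH
  have h1CC : (1 : Ω → K) ∈ C * C := by
    have := Submodule.mul_mem_mul h1C h1C
    rwa [one_mul] at this
  have hHCC : ∀ h ∈ H, h ∈ C * C := by
    intro h hh
    have h4 : h * 1 ∈ C * C := hh 1 h1CC
    rwa [mul_one] at h4
  have hHA : ∀ y ∈ (H.toSubmodule * A : Submodule K (Ω → K)), ∀ x ∈ C * C,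
      ∑ ω, x ω * y ω = 0 := by
    intro y hy
    refine Submodule.mul_induction_on (C := fun y => ∀ x ∈ C * C, ∑ ω, x ω * y ω = 0) hy ?_ ?_
    · intro h hh a ha x hx
      have h4 : h * x ∈ C * C := hh x hx
      have h5 := hCC _ h4 a ha
      rw [← h5]
      refine Finset.sum_congr rfl fun ω _ => ?_
      simp only [Pi.mul_apply]
      ring
    · intro y z hy hz x hx
      simp only [Pi.add_apply, mul_add, sum_add_distrib]
      rw [hy x hx, hz x hx, add_zero]
  have hd1 := orth_finrank (C * C) (H.toSubmodule * A) fun x hx y hy => hHA y hy x hx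
  have hdisj : H.toSubmodule ⊓ (H.toSubmodule * A) = ⊥ := by
    rw [Submodule.eq_bot_iff]
    rintro h ⟨hh, hh'⟩
    by_contra hne
    obtain ⟨ω₀, hω₀⟩ : ∃ ω₀, h ω₀ ≠ 0 := by
      by_contra hno
      push Not at hno
      exact hne (funext hno)
    obtain ⟨g, hg, hgh⟩ := exists_pair H h hh ω₀ hω₀
    exact hgh (hHA h hh' g (hHCC g hg))
  have hHC : H.toSubmodule * C = H.toSubmodule ⊔ (H.toSubmodule * A) := by
    rw [hC, Submodule.mul_sup, mul_one]
  have hd2 := kneser C ⟨1, h1C, fun ω => one_ne_zero⟩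
  rw [← hH, hHC] at hd2
  have hd3 := Submodule.finrank_sup_add_finrank_inf_eq H.toSubmodule (H.toSubmodule * A)
  rw [hdisj, finrank_bot] at hd3
  have hd4 : finrank K A ≤ finrank K (H.toSubmodule * A : Submodule K (Ω → K)) := by
    refine Submodule.finrank_mono fun a ha => ?_
    have := Submodule.mul_mem_mul (show (1 : Ω → K) ∈ H.toSubmodule from H.one_mem) ha
    rwa [one_mul] at this
  have hd5 : finrank K H.toSubmodule = finrank K H := rfl
  have hd6 : 0 < finrank K H := by
    rw [finrank_pos_iff]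
    infer_instance
  omega

end Main

end Pool.Agent.V7L.Dc
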