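import Pool.Agent.V7L.Dc.DetSide
import Pool.Agent.V7L.Dc.Cubic

/-!
# A lower bound on the determinantal complexity of the permanent
-/

set_option autoImplicit false
set_option linter.unusedSectionVars false

universe u

namespace Pool.Agent.V7L.Dc

open Finset Module Polynomial

variable {K : Type u} [Field K] {ι : Type*} [Fintype ι] [DecidableEq ι]
  {J : Type*} [Fintype J] [DecidableEq J]

/-- A matrix, extended by two zero rows and columns. -/
def emb {R : Type*} [Zero R] (v : ι × ι → R) : Matrix (ι ⊕ Fin 2) (ι ⊕ Fin 2) R :=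
  Matrix.fromBlocks (Matrix.of fun i j => v (i, j)) 0 0 0

/-- The linear combination of matrices with coefficients `v`. -/
def lin (L : ι × ι → Matrix J J K) {R : Type*} [CommRing R] [Algebra K R] (v : ι × ι → R) :
    Matrix J J R :=
  ∑ p, v p • (L p).map (algebraMap K R)

/-- The permanent near the point is the determinant of a matrix with constant part `D`. -/
def Good (D : J → K) (L : ι × ι → Matrix J J K) : Prop :=
  ∀ (R : Type u) [CommRing R] [Algebra K R] (v : ι × ι → R),
    (pt R (Sum.inr 0) (Sum.inr 1) + emb v).permanent =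
      ((Matrix.diagonal D).map (algebraMap K R) + lin L v).det

theorem pt_map {R : Type*} [CommRing R] [Algebra K R] {I : Type*} [Fintype I] [DecidableEq I]
    (a b i j : I) : pt R a b i j = algebraMap K R (pt K a b i j) := by
  have e4 : algebraMap K R 4 = 4 := map_ofNat _ 4
  have e2 : algebraMap K R 2 = 2 := map_ofNat _ 2
  simp only [pt, Matrix.of_apply, map_mul]
  congr 1 <;> split_ifs <;> simp [e4, e2]

theorem exists_good (L₀ : Matrix J J K) (L : ι ⊕ Fin 2 → ι ⊕ Fin 2 → Matrix J J K)
    (h : ∀ (R : Type u) [CommRing R] [Algebra K R] (X : Matrix (ι ⊕ Fin 2) (ι ⊕ Fin 2) R),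
      X.permanent = (L₀.map (algebraMap K R) +
        ∑ i, ∑ j, X i j • (L i j).map (algebraMap K R)).det) :
    ∃ (D : J → K) (L' : ι × ι → Matrix J J K), Good D L' := by
  classical
  obtain ⟨l, l', D, hM⟩ := Matrix.Pivot.exists_list_transvec_mul_diagonal_mul_list_transvec
    (L₀ + ∑ i, ∑ j, pt K (Sum.inr 0 : ι ⊕ Fin 2) (Sum.inr 1) i j • L i j)
  set P := (l.map Matrix.TransvectionStruct.toMatrix).prod with hP
  set Q := (l'.map Matrix.TransvectionStruct.toMatrix).prod with hQ
  have hPdet : P.det = 1 := Matrix.TransvectionStruct.det_toMatrix_prod l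
  have hQdet : Q.det = 1 := Matrix.TransvectionStruct.det_toMatrix_prod l'
  have hPP : P * P⁻¹ = 1 := Matrix.mul_nonsing_inv P (by rw [hPdet]; exact isUnit_one)
  have hQQ : Q⁻¹ * Q = 1 := Matrix.nonsing_inv_mul Q (by rw [hQdet]; exact isUnit_one)
  refine ⟨D, fun p => P⁻¹ * L (Sum.inl p.1) (Sum.inl p.2) * Q⁻¹, ?_⟩
  intro R _ _ v
  rw [h]
  let F : Matrix J J K →+* Matrix J J R := (algebraMap K R).mapMatrix
  have hF : ∀ M : Matrix J J K, M.map (algebraMap K R) = F M := fun _ => rfl
  have hFs : ∀ (c : K) (M : Matrix J J K), F (c • M) = (algebraMap K R c) • F M := by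
    intro c M
    ext i j
    simp [F]
  have e1 : ∑ i, ∑ j, (pt R (Sum.inr 0) (Sum.inr 1) + emb v :
      Matrix (ι ⊕ Fin 2) (ι ⊕ Fin 2) R) i j • F (L i j) =
      F (∑ i, ∑ j, pt K (Sum.inr 0 : ι ⊕ Fin 2) (Sum.inr 1) i j • L i j) +
        ∑ p : ι × ι, v p • F (L (Sum.inl p.1) (Sum.inl p.2)) := by
    have e2 : ∀ i j, (pt R (Sum.inr 0) (Sum.inr 1) + emb v :
        Matrix (ι ⊕ Fin 2) (ι ⊕ Fin 2) R) i j • F (L i j) =
        F (pt K (Sum.inr 0 : ι ⊕ Fin 2) (Sum.inr 1) i j • L i j) + emb v i j • F (L i j) := by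
      intro i j
      rw [Matrix.add_apply, add_smul, hFs, ← pt_map]
    simp only [e2, Finset.sum_add_distrib, map_sum]
    congr 1
    rw [Fintype.sum_sum_type, Fintype.sum_prod_type]
    simp [emb, Fintype.sum_sum_type]
  simp only [hF, lin]
  rw [e1, ← add_assoc, ← map_add, hM]
  have e3 : F (P * Matrix.diagonal D * Q) +
      ∑ p : ι × ι, v p • F (L (Sum.inl p.1) (Sum.inl p.2)) =
      F P * (F (Matrix.diagonal D) +
        ∑ p : ι × ι, v p • F (P⁻¹ * L (Sum.inl p.1) (Sum.inl p.2) * Q⁻¹)) * F Q := by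
    rw [mul_add, add_mul, Finset.mul_sum, Finset.sum_mul, map_mul, map_mul]
    congr 1
    refine Finset.sum_congr rfl fun p _ => ?_
    rw [Matrix.mul_smul, Matrix.smul_mul, ← map_mul, ← map_mul]
    congr 2
    rw [← mul_assoc, ← mul_assoc, hPP, one_mul, mul_assoc, hQQ, mul_one]
  rw [e3, Matrix.det_mul, Matrix.det_mul]
  have e4 : (F P).det = 1 := by
    have : (F P).det = algebraMap K R P.det := (RingHom.map_det _ _).symm
    rw [this, hPdet, map_one]
  have e5 : (F Q).det = 1 := by
    have : (F Q).det = algebraMap K R Q.det := (RingHom.map_det _ _).symm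
    rw [this, hQdet, map_one]
  rw [e4, e5, one_mul, mul_one]

theorem line_det {D : J → K} {L : ι × ι → Matrix J J K} (hg : Good D L) {R : Type u} [CommRing R]
    [Algebra K R] (v : ι × ι → R) :
    line (Sum.inr 0) (Sum.inr 1) (emb v) =
      (((Matrix.diagonal D).map (algebraMap K R)).map C + (X : R[X]) • (lin L v).map C).det := by
  unfold line
  have h1 : (X : R[X]) • (emb v).map C = emb (fun p => (X : R[X]) * C (v p)) := by
    ext1 i j
    rcases i with i | i <;> rcases j with j | j <;> simp [emb]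
  have h2 : (Matrix.diagonal D).map (algebraMap K R[X]) =
      ((Matrix.diagonal D).map (algebraMap K R)).map C := by
    ext1 i j
    simp only [Matrix.map_apply, Polynomial.algebraMap_apply]
  have h3 : lin L (fun p => (X : R[X]) * C (v p)) = (X : R[X]) • (lin L v).map C := by
    unfold lin
    ext1 i j
    simp only [Matrix.sum_apply, Matrix.smul_apply, Matrix.map_apply, smul_eq_mul,
      Polynomial.algebraMap_apply, map_sum, map_mul, Finset.mul_sum]
    refine Finset.sum_congr rfl fun p _ => ?_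
    ring
  rw [h1, hg, h2, h3]

section Values

variable {R : Type*} [CommRing R]

theorem emb_row (v : ι × ι → R) (h : ∀ i, ∑ j, v (i, j) = 0) (i : ι ⊕ Fin 2) :
    ∑ j, emb v i j = 0 := by
  rcases i with i | i <;> simp [emb, h]

theorem emb_col (v : ι × ι → R) (h : ∀ j, ∑ i, v (i, j) = 0) (j : ι ⊕ Fin 2) :
    ∑ i, emb v i j = 0 := by
  rcases j with j | j <;> simp [emb, h]

theorem emb_cube (v : ι × ι → R) : ∑ i, ∑ j, emb v i j ^ 3 = ∑ p, v p ^ 3 := by
  rw [Fintype.sum_prod_type]
  simp [emb]

theorem emb_inr_left (v : ι × ι → R) (a : Fin 2) (j : ι ⊕ Fin 2) : emb v (Sum.inr a) j = 0 := by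
  rcases j with j | j <;> simp [emb]

theorem emb_inr_right (v : ι × ι → R) (a : Fin 2) (i : ι ⊕ Fin 2) : emb v i (Sum.inr a) = 0 := by
  rcases i with i | i <;> simp [emb]

theorem natCast_ne {n d : ℕ} (h : (n.factorial : R) ≠ 0) (hd : 0 < d) (hdn : d ≤ n) :
    (d : R) ≠ 0 := by
  intro h0
  apply h
  obtain ⟨c, hc⟩ := Nat.dvd_factorial hd hdn
  rw [hc]
  push_cast
  rw [h0, zero_mul]

theorem natCast_sub_ne {n d : ℕ} (h : (n.factorial : R) ≠ 0) (hdn : d < n) :
    (n : R) - d ≠ 0 := by
  rw [← Nat.cast_sub hdn.le]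
  exact natCast_ne h (by omega) (by omega)

variable [IsDomain R] (v : ι × ι → R) (hr : ∀ i, ∑ j, v (i, j) = 0) (hc : ∀ j, ∑ i, v (i, j) = 0)
  (hn : 3 ≤ Fintype.card ι) (hK : ((Fintype.card (ι ⊕ Fin 2)).factorial : R) ≠ 0)
include hr hc hn hK

theorem cube_dvd : (X : R[X]) ^ 3 ∣ line (Sum.inr 0) (Sum.inr 1) (emb v) := by
  have hcard : Fintype.card (ι ⊕ Fin 2) = Fintype.card ι + 2 := by simp
  have h0 : (Fintype.card (ι ⊕ Fin 2) : R) ≠ 0 := natCast_ne hK (by omega) le_rfl
  have h1 : (Fintype.card (ι ⊕ Fin 2) : R) - 1 ≠ 0 := by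
    have := natCast_sub_ne (d := 1) hK (by omega)
    rwa [Nat.cast_one] at this
  have h2 : (Fintype.card (ι ⊕ Fin 2) : R) - 2 ≠ 0 := by
    have := natCast_sub_ne (d := 2) hK (by omega)
    rwa [Nat.cast_ofNat] at this
  have h3 : (Fintype.card (ι ⊕ Fin 2) : R) - 3 ≠ 0 := by
    have := natCast_sub_ne (d := 3) hK (by omega)
    rwa [Nat.cast_ofNat] at this
  have hab : (Sum.inr 0 : ι ⊕ Fin 2) ≠ Sum.inr 1 := by simp
  rw [Polynomial.X_pow_dvd_iff]
  intro d hd
  have hd' : d = 0 ∨ d = 1 ∨ d = 2 := by omega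
  rcases hd' with rfl | rfl | rfl
  · have h4 := coeff_zero_mul hab (emb v) (emb_inr_left v 0) (emb_inr_left v 1)
      (emb_inr_right v 0) (emb_inr_right v 1)
    exact (mul_eq_zero.1 h4).resolve_left (mul_ne_zero h0 h1)
  · have h4 := coeff_one_mul hab (emb v) (emb_inr_left v 0) (emb_inr_left v 1)
      (emb_inr_right v 0) (emb_inr_right v 1) (emb_row v hr) (emb_col v hc)
    exact (mul_eq_zero.1 h4).resolve_left (mul_ne_zero (mul_ne_zero h0 h1) h2)
  · have h4 := coeff_two_mul hab (emb v) (emb_inr_left v 0) (emb_inr_left v 1)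
      (emb_inr_right v 0) (emb_inr_right v 1)
    exact (mul_eq_zero.1 h4).resolve_left (mul_ne_zero h2 h3)

omit hn [IsDomain R] hK in
theorem dvd_cubes (t : R) (ht : t ∣ (line (Sum.inr 0) (Sum.inr 1) (emb v)).coeff 3) :
    t ∣ (4 * (Fintype.card (ι ⊕ Fin 2)).factorial : R) * ∑ p, v p ^ 3 := by
  have hab : (Sum.inr 0 : ι ⊕ Fin 2) ≠ Sum.inr 1 := by simp
  have h4 := coeff_three_mul hab (emb v) (emb_inr_left v 0) (emb_inr_left v 1)
      (emb_inr_right v 0) (emb_inr_right v 1) (emb_row v hr) (emb_col v hc)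
  rw [emb_cube] at h4
  rw [← h4]
  exact Dvd.dvd.mul_left ht _

end Values

theorem polarise {Ω : Type*} [Fintype Ω] (W : Submodule K (Ω → K)) (h2 : (2 : K) ≠ 0)
    (h3' : (3 : K) ≠ 0) (hcube : ∀ a ∈ W, ∑ p, a p ^ 3 = 0) :
    ∀ a ∈ W, ∀ b ∈ W, ∀ c ∈ W, ∑ p, a p * b p * c p = 0 := by
  intro a ha b hb c hc
  have e1 := hcube (a + b + c) (W.add_mem (W.add_mem ha hb) hc)
  have e2 := hcube (a + b) (W.add_mem ha hb)
  have e3 := hcube (a + c) (W.add_mem ha hc)
  have e4 := hcube (b + c) (W.add_mem hb hc)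
  have e5 := hcube a ha
  have e6 := hcube b hb
  have e7 := hcube c hc
  have e8 : (2 * 3) * ∑ p, a p * b p * c p = ∑ p, (a + b + c) p ^ 3 - ∑ p, (a + b) p ^ 3 -
      ∑ p, (a + c) p ^ 3 - ∑ p, (b + c) p ^ 3 + ∑ p, a p ^ 3 + ∑ p, b p ^ 3 + ∑ p, c p ^ 3 := by
    rw [mul_sum, ← sum_sub_distrib, ← sum_sub_distrib, ← sum_sub_distrib, ← sum_add_distrib,
      ← sum_add_distrib, ← sum_add_distrib]
    refine Finset.sum_congr rfl fun p _ => ?_
    simp only [Pi.add_apply]
    ring
  rw [e1, e2, e3, e4, e5, e6, e7] at e8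
  have e9 : (2 * 3 : K) * ∑ p, a p * b p * c p = 0 := by rw [e8]; ring
  exact (mul_eq_zero.1 e9).resolve_left (mul_ne_zero h2 h3')

theorem polarise2 {Ω : Type*} [Fintype Ω] (W V : Submodule K (Ω → K)) (h2 : (2 : K) ≠ 0)
    (h : ∀ a ∈ W, ∀ v ∈ V, ∑ p, a p ^ 2 * v p = 0) :
    ∀ a ∈ W, ∀ b ∈ W, ∀ v ∈ V, ∑ p, a p * b p * v p = 0 := by
  intro a ha b hb v hv
  have e1 := h (a + b) (W.add_mem ha hb) v hv
  have e2 := h a ha v hv
  have e3 := h b hb v hv
  have e8 : 2 * ∑ p, a p * b p * v p = ∑ p, (a + b) p ^ 2 * v p - ∑ p, a p ^ 2 * v p -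
      ∑ p, b p ^ 2 * v p := by
    rw [mul_sum, ← sum_sub_distrib, ← sum_sub_distrib]
    refine Finset.sum_congr rfl fun p _ => ?_
    simp only [Pi.add_apply]
    ring
  rw [e1, e2, e3, sub_zero, sub_zero] at e8
  exact (mul_eq_zero.1 e8).resolve_left h2

/-- `lin` over the field is linear. -/
def linMap (L : ι × ι → Matrix J J K) (i j : J) : (ι × ι → K) →ₗ[K] K where
  toFun v := lin L v i j
  map_add' v w := by
    simp only [lin, Pi.add_apply, add_smul, Finset.sum_add_distrib, Matrix.add_apply]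
  map_smul' c v := by
    simp only [lin, Pi.smul_apply, smul_eq_mul, mul_smul, ← Finset.smul_sum, Matrix.smul_apply,
      RingHom.id_apply]

/-- **The main inequality.** -/
theorem lower {D : J → K} {L : ι × ι → Matrix J J K} (hg : Good D L)
    (hN : 6 ≤ Fintype.card ι) (hK : ((Fintype.card (ι ⊕ Fin 2)).factorial : K) ≠ 0) :
    Fintype.card ι ^ 2 + 1 ≤ Fintype.card J + 4 * Fintype.card ι := by
  classical
  have hcard : Fintype.card (ι ⊕ Fin 2) = Fintype.card ι + 2 := by simp
  have h2 : (2 : K) ≠ 0 := by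
    have := natCast_ne (d := 2) hK (by omega) (by omega)
    rwa [Nat.cast_ofNat] at this
  have h3 : (3 : K) ≠ 0 := by
    have := natCast_ne (d := 3) hK (by omega) (by omega)
    rwa [Nat.cast_ofNat] at this
  -- the space of matrices with zero row and column sums
  let Φ : (ι × ι → K) →ₗ[K] (ι → K) × (ι → K) :=
    { toFun := fun w => (fun i => ∑ j, w (i, j), fun j => ∑ i, w (i, j))
      map_add' := by
        intro x y
        simp only [Pi.add_apply, sum_add_distrib]
        rfl
      map_smul' := by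
        intro c x
        simp only [Pi.smul_apply, smul_eq_mul, ← mul_sum, RingHom.id_apply]
        rfl }
  set Y : Submodule K (ι × ι → K) := LinearMap.ker Φ with hY
  have hmem : ∀ v ∈ Y, (∀ i, ∑ j, v (i, j) = 0) ∧ (∀ j, ∑ i, v (i, j) = 0) := by
    intro v hv
    have h1 : Φ v = 0 := hv
    rw [Prod.ext_iff] at h1
    exact ⟨fun i => congrFun h1.1 i, fun j => congrFun h1.2 j⟩
  have hdimY : Fintype.card ι ^ 2 ≤ finrank K Y + 2 * Fintype.card ι := by
    have h4 := LinearMap.finrank_range_add_finrank_ker Φ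
    have h5 : finrank K (LinearMap.range Φ) ≤ 2 * Fintype.card ι := by
      refine (Submodule.finrank_le _).trans ?_
      simp only [Module.finrank_prod, Module.finrank_fintype_fun_eq_card]
      omega
    rw [Module.finrank_fintype_fun_eq_card, Fintype.card_prod] at h4
    have h6 : finrank K (LinearMap.ker Φ) = finrank K Y := rfl
    rw [sq]
    omega
  have hdvd : ∀ v ∈ Y, (X : K[X]) ^ 3 ∣
      ((Matrix.diagonal D).map C + (X : K[X]) • (lin L v).map C).det := by
    intro v hv
    have h4 := cube_dvd v (hmem v hv).1 (hmem v hv).2 (by omega) hK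
    rwa [line_det hg] at h4
  -- there is a zero on the diagonal
  have hzero : ∃ i, D i = 0 := by
    by_contra hno
    push Not at hno
    have h4 := hdvd 0 Y.zero_mem
    have h5 : lin L (0 : ι × ι → K) = 0 := by simp [lin]
    rw [h5] at h4
    have h6 : ((Matrix.diagonal D).map C + (X : K[X]) • (0 : Matrix J J K).map C).det =
        C (∏ i, D i) := by
      rw [Matrix.map_zero _ C_0, smul_zero, add_zero]
      have : ((Matrix.diagonal D).map (C : K →+* K[X])).det = C (Matrix.diagonal D).det :=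
        (RingHom.map_det _ _).symm
      rw [this, Matrix.det_diagonal]
    rw [h6] at h4
    have h7 := (Polynomial.X_pow_dvd_iff.1 h4) 0 (by norm_num)
    rw [Polynomial.coeff_C_zero] at h7
    exact (Finset.prod_ne_zero_iff.2 fun i _ => hno i) h7
  by_cases htwo : ∃ i₁ i₂, i₁ ≠ i₂ ∧ D i₁ = 0 ∧ D i₂ = 0
  · -- two zeros
    exfalso
    obtain ⟨i₁, i₂, hne, hD1, hD2⟩ := htwo
    set z : Fin 2 → J := ![i₁, i₂] with hz
    let Ξ : (ι × ι → K) →ₗ[K] (Fin 2 × Fin 2 → K) :=
      LinearMap.pi fun q => linMap L (z q.1) (z q.2)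
    set W : Submodule K (ι × ι → K) := Y ⊓ LinearMap.ker Ξ with hW
    have hdimW : finrank K Y ≤ finrank K W + 4 := by
      have h4 := LinearMap.finrank_range_add_finrank_ker (Ξ.domRestrict Y)
      have h5 : finrank K (LinearMap.ker (Ξ.domRestrict Y)) = finrank K W := by
        rw [LinearMap.ker_domRestrict, ← Submodule.finrank_map_subtype_eq,
          Submodule.map_comap_subtype]
      have h6 : finrank K (LinearMap.range (Ξ.domRestrict Y)) ≤ 4 := by
        refine (Submodule.finrank_le _).trans ?_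
        simp
      omega
    have hWmem : ∀ w ∈ W, ∀ a b : Fin 2, lin L w (z a) (z b) = 0 := by
      intro w hw a b
      have h4 : Ξ w = 0 := hw.2
      exact congrFun h4 (a, b)
    have hcube : ∀ w ∈ W, ∑ p, w p ^ 3 = 0 := by
      intro w hw
      have hDz : ∀ a, D (z a) = 0 := by
        intro a
        fin_cases a
        · exact hD1
        · exact hD2
      have hZmem : ∀ i, i ∈ univ.image z → ∃ a, z a = i := by
        intro i hi
        obtain ⟨a, _, ha⟩ := mem_image.1 hi
        exact ⟨a, ha⟩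
      have h4 : (X : K[X]) ^ (2 * (univ.image z).card) ∣
          ((Matrix.diagonal D).map C + (X : K[X]) • (lin L w).map C).det := by
        have hdiag1 : ∀ a j, Matrix.diagonal D (z a) j = 0 := by
          intro a j
          rw [Matrix.diagonal_apply]
          split_ifs
          · exact hDz a
          · rfl
        have hdiag2 : ∀ i b, Matrix.diagonal D i (z b) = 0 := by
          intro i b
          rw [Matrix.diagonal_apply]
          split_ifs with h
          · rw [h]; exact hDz b
          · rfl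
        have hMe : ∀ i j, ((Matrix.diagonal D).map C + (X : K[X]) • (lin L w).map C) i j =
            C (Matrix.diagonal D i j) + X * C (lin L w i j) := fun i j => rfl
        refine dvd_det _ _ _ ?_ ?_ ?_
        · intro i hi j hj
          obtain ⟨a, rfl⟩ := hZmem i hi
          obtain ⟨b, rfl⟩ := hZmem j hj
          rw [hMe, hdiag1, hWmem w hw a b, C_0, mul_zero, add_zero]
        · intro i hi j
          obtain ⟨a, rfl⟩ := hZmem i hi
          rw [hMe, hdiag1, C_0, zero_add]
          exact dvd_mul_right _ _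
        · intro i j hj
          obtain ⟨b, rfl⟩ := hZmem j hj
          rw [hMe, hdiag2, C_0, zero_add]
          exact dvd_mul_right _ _
      have h5 : (univ.image z).card = 2 := by
        rw [Finset.card_image_of_injective]
        · simp
        · intro a b hab
          fin_cases a <;> fin_cases b <;> simp_all
      rw [h5] at h4
      have h6 := (Polynomial.X_pow_dvd_iff.1 h4) 3 (by norm_num)
      have hYw := hmem w hw.1
      have h7 := dvd_cubes w hYw.1 hYw.2 0 (by
        rw [line_det hg]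
        have : ((Matrix.diagonal D).map (algebraMap K K)).map (C : K → K[X]) =
          (Matrix.diagonal D).map C := by
          ext i j : 2
          simp
        rw [this, h6])
      rw [zero_dvd_iff] at h7
      refine (mul_eq_zero.1 h7).resolve_left (mul_ne_zero ?_ hK)
      have : (4 : K) = 2 * 2 := by norm_num
      rw [this]
      exact mul_ne_zero h2 h2
    have h4 := prod_orth W W (polarise W h2 h3 hcube)
    rw [Fintype.card_prod] at h4
    nlinarith
  · -- exactly one zero
    obtain ⟨i₀, hi₀⟩ := hzero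
    have hD : ∀ j, j ≠ i₀ → D j ≠ 0 := fun j hj h0 => htwo ⟨j, i₀, hj, h0, hi₀⟩
    have hone : ∀ v ∈ Y, lin L v i₀ i₀ = 0 ∧
        ∑ j ∈ univ.erase i₀, lin L v i₀ j * lin L v j i₀ / D j = 0 :=
      fun v hv => one_zero D (lin L v) i₀ hi₀ hD (hdvd v hv)
    let r : Y →ₗ[K] (J → K) := (LinearMap.pi fun j => linMap L i₀ j).comp Y.subtype
    let c : Y →ₗ[K] (J → K) := (LinearMap.pi fun j => linMap L j i₀).comp Y.subtype
    have hrc := iso_finrank D i₀ hD r c (fun v => (hone v v.2).1) (fun v => (hone v v.2).1) h2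
      (fun v => (hone v v.2).2)
    set W : Submodule K (ι × ι → K) := (LinearMap.ker (r.prod c)).map Y.subtype with hW
    have hdimW : finrank K W = finrank K (LinearMap.ker (r.prod c)) :=
      Submodule.finrank_map_subtype_eq _ _
    have hWmem : ∀ w ∈ W, w ∈ Y ∧ (∀ j, lin L w i₀ j = 0) ∧ (∀ j, lin L w j i₀ = 0) := by
      rintro _ ⟨w, hw, rfl⟩
      have h4 : (r w, c w) = 0 := hw
      rw [Prod.mk_eq_zero] at h4
      exact ⟨w.2, fun j => congrFun h4.1 j, fun j => congrFun h4.2 j⟩
    have hsq : ∀ w ∈ W, ∀ v ∈ Y, ∑ p, w p ^ 2 * v p = 0 := by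
      intro w hw v hv
      obtain ⟨hwY, hw1, hw2⟩ := hWmem w hw
      let q : ι × ι → K[X] := fun p => C (w p) + X * C (v p)
      have hq : ∀ i j, lin L q i j = C (lin L w i j) + X * C (lin L v i j) := by
        intro i j
        simp only [lin, Matrix.sum_apply, Matrix.smul_apply, Matrix.map_apply, smul_eq_mul,
          Polynomial.algebraMap_apply, map_sum, map_mul, Finset.mul_sum, q, add_mul,
          Finset.sum_add_distrib]
        congr 1
        refine Finset.sum_congr rfl fun p _ => ?_
        ring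
      have hq1 : ∀ i, ∑ j, q (i, j) = 0 := by
        intro i
        simp only [q, Finset.sum_add_distrib, ← Finset.mul_sum, ← map_sum]
        rw [(hmem w hwY).1, (hmem v hv).1]
        simp
      have hq2 : ∀ j, ∑ i, q (i, j) = 0 := by
        intro j
        simp only [q, Finset.sum_add_distrib, ← Finset.mul_sum, ← map_sum]
        rw [(hmem w hwY).2, (hmem v hv).2]
        simp
      have h4 : (C (X : K[X]) : K[X][X]) ^ (2 * ({i₀} : Finset J).card) ∣
          line (Sum.inr 0) (Sum.inr 1) (emb q) := by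
        rw [line_det hg]
        have hMe : ∀ i j, (((Matrix.diagonal D).map (algebraMap K K[X])).map C +
            (X : K[X][X]) • (lin L q).map C) i j =
            C (algebraMap K K[X] (Matrix.diagonal D i j)) + X * C (lin L q i j) := fun i j => rfl
        refine dvd_det _ _ _ ?_ ?_ ?_
        · intro i hi j hj
          rw [mem_singleton] at hi hj
          rw [hi, hj, hMe, hq, hw1, (hone v hv).1, Matrix.diagonal_apply_eq, hi₀]
          simp
        · intro i hi j
          rw [mem_singleton] at hi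
          have hd : Matrix.diagonal D i j = 0 := by
            rw [Matrix.diagonal_apply]
            split_ifs
            · rw [hi]; exact hi₀
            · rfl
          refine ⟨X * C (C (lin L v i j)), ?_⟩
          rw [hMe, hd, hq, hi, hw1, map_zero, map_zero, map_zero, zero_add, zero_add, map_mul]
          ring
        · intro i j hj
          rw [mem_singleton] at hj
          have hd : Matrix.diagonal D i j = 0 := by
            rw [Matrix.diagonal_apply]
            split_ifs with h
            · rw [h, hj]; exact hi₀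
            · rfl
          refine ⟨X * C (C (lin L v i j)), ?_⟩
          rw [hMe, hd, hq, hj, hw2, map_zero, map_zero, map_zero, zero_add, zero_add, map_mul]
          ring
      rw [card_singleton, mul_one, ← map_pow, Polynomial.C_dvd_iff_dvd_coeff] at h4
      have h5 := dvd_cubes q hq1 hq2 _ (h4 3)
      have h6 := (Polynomial.X_pow_dvd_iff.1 h5) 1 (by norm_num)
      have h7 : ∑ p, q p ^ 3 = C (∑ p, w p ^ 3) + X * (C (3 * ∑ p, w p ^ 2 * v p)) +
          X ^ 2 * (∑ p, (3 * C (w p * v p ^ 2) + X * C (v p ^ 3))) := by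
        have e3 : (C (3 : K) : K[X]) = 3 := map_ofNat C 3
        rw [map_mul, e3, map_sum, map_sum, Finset.mul_sum, Finset.mul_sum, Finset.mul_sum,
          ← Finset.sum_add_distrib, ← Finset.sum_add_distrib]
        refine Finset.sum_congr rfl fun p _ => ?_
        simp only [q, map_pow, map_mul]
        ring
      have h8 : (4 * ((Fintype.card (ι ⊕ Fin 2)).factorial : K[X])) =
          C (4 * ((Fintype.card (ι ⊕ Fin 2)).factorial : K)) := by
        rw [map_mul, map_natCast]
        congr 1
      rw [h8, h7, Polynomial.coeff_C_mul, Polynomial.coeff_add, Polynomial.coeff_add,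
        Polynomial.coeff_C_succ, zero_add, Polynomial.coeff_X_mul, Polynomial.coeff_C_zero,
        Polynomial.coeff_X_pow_mul', if_neg (by norm_num), add_zero] at h6
      have h9 : (4 * ((Fintype.card (ι ⊕ Fin 2)).factorial : K)) ≠ 0 := by
        refine mul_ne_zero ?_ hK
        have : (4 : K) = 2 * 2 := by norm_num
        rw [this]
        exact mul_ne_zero h2 h2
      exact (mul_eq_zero.1 ((mul_eq_zero.1 h6).resolve_left h9)).resolve_left h3
    have h4 := prod_orth W Y (polarise2 W Y h2 hsq)
    rw [Fintype.card_prod, hdimW] at h4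
    nlinarith

end Pool.Agent.V7L.Dc
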