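import Mathlib

/-!
# The expansion of the permanent at the Mignon-Ressayre point

If `u` has zero row sums and column sums, and vanishes on the row and the column of `z`, and the
permanent vanishes on the line `x₀ + t u`, where all entries of `x₀` are `1`, except that
`x₀ z z = 1 - n`, then `∑ u ^ 2 = ∑ u ^ 3 = 0`.
-/

set_option autoImplicit false
set_option linter.unusedSectionVars false

namespace Pool.Agent.V7L.Dc

open Finset Equiv

section Average

variable {K : Type*} [CommRing K] {I : Type*} [Fintype I] [DecidableEq I]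

theorem sum_swap (Φ : Perm I → K) (k r : I) :
    ∑ σ : Perm I, Φ (σ * swap k r) = ∑ σ : Perm I, Φ σ :=
  Equiv.sum_comp (Equiv.mulRight (swap k r)) Φ

theorem avg0 (g : I → K) (i : I) :
    (Fintype.card I : K) * ∑ σ : Perm I, g (σ i) = ((Fintype.card I).factorial : K) * ∑ j, g j := by
  have h1 : ∀ r : I, ∑ σ : Perm I, g (σ r) = ∑ σ : Perm I, g (σ i) := by
    intro r
    rw [← sum_swap (fun σ => g (σ i)) i r]
    refine Finset.sum_congr rfl fun σ _ => ?_
    simp
  have h2 : ∑ r : I, ∑ σ : Perm I, g (σ r) = (Fintype.card I : K) * ∑ σ : Perm I, g (σ i) := by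
    rw [Finset.sum_congr rfl fun r _ => h1 r, Finset.sum_const, nsmul_eq_mul, Finset.card_univ]
  rw [← h2, Finset.sum_comm]
  have h3 : ∀ σ : Perm I, ∑ r, g (σ r) = ∑ j, g j := fun σ => Equiv.sum_comp σ g
  rw [Finset.sum_congr rfl fun σ _ => h3 σ, Finset.sum_const, nsmul_eq_mul, Finset.card_univ,
    Fintype.card_perm]

theorem avg1 (g w : I → K) (hw : ∑ j, w j = 0) {i k : I} (hik : i ≠ k) :
    ((Fintype.card I : K) - 1) * ∑ σ : Perm I, g (σ i) * w (σ k) =
      -∑ σ : Perm I, g (σ i) * w (σ i) := by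
  have h1 : ∀ r ∈ univ.erase i, ∑ σ : Perm I, g (σ i) * w (σ r) =
      ∑ σ : Perm I, g (σ i) * w (σ k) := by
    intro r hr
    rw [← sum_swap (fun σ => g (σ i) * w (σ k)) k r]
    refine Finset.sum_congr rfl fun σ _ => ?_
    have h2 : swap k r i = i := swap_apply_of_ne_of_ne hik (ne_of_mem_erase hr).symm
    simp [h2]
  have h2 : ∑ r ∈ univ.erase i, ∑ σ : Perm I, g (σ i) * w (σ r) =
      ((Fintype.card I : K) - 1) * ∑ σ : Perm I, g (σ i) * w (σ k) := by
    rw [Finset.sum_congr rfl h1, Finset.sum_const, nsmul_eq_mul, card_erase_of_mem (mem_univ i),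
      Finset.card_univ, Nat.cast_sub (Fintype.card_pos_iff.2 ⟨i⟩), Nat.cast_one]
  rw [← h2, Finset.sum_comm, ← Finset.sum_neg_distrib]
  refine Finset.sum_congr rfl fun σ _ => ?_
  rw [← Finset.mul_sum]
  have h3 : ∑ r ∈ univ.erase i, w (σ r) = - w (σ i) := by
    have h4 := Finset.add_sum_erase univ (fun r => w (σ r)) (mem_univ i)
    rw [Equiv.sum_comp σ w, hw] at h4
    linear_combination h4
  rw [h3, mul_neg]

theorem avg2 (g h w : I → K) (hw : ∑ j, w j = 0) {i k l : I} (hik : i ≠ k) (hil : i ≠ l)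
    (hkl : k ≠ l) :
    ((Fintype.card I : K) - 2) * ∑ σ : Perm I, g (σ i) * h (σ k) * w (σ l) =
      -∑ σ : Perm I, g (σ i) * h (σ k) * (w (σ i) + w (σ k)) := by
  have h1 : ∀ r ∈ (univ.erase i).erase k, ∑ σ : Perm I, g (σ i) * h (σ k) * w (σ r) =
      ∑ σ : Perm I, g (σ i) * h (σ k) * w (σ l) := by
    intro r hr
    rw [← sum_swap (fun σ => g (σ i) * h (σ k) * w (σ l)) l r]
    refine Finset.sum_congr rfl fun σ _ => ?_
    have h2 : swap l r i = i :=
      swap_apply_of_ne_of_ne hil (ne_of_mem_erase (mem_of_mem_erase hr)).symm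
    have h3 : swap l r k = k := swap_apply_of_ne_of_ne hkl (ne_of_mem_erase hr).symm
    simp [h2, h3]
  have hk : k ∈ univ.erase i := mem_erase.2 ⟨hik.symm, mem_univ _⟩
  have hcard : (((univ.erase i).erase k).card : K) = (Fintype.card I : K) - 2 := by
    have h5 := card_erase_add_one (mem_univ i)
    have h6 := card_erase_add_one hk
    rw [Finset.card_univ] at h5
    have h7 : (((univ.erase i).erase k).card : K) + 2 = Fintype.card I := by
      rw [← h5, ← h6]
      push_cast
      ring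
    linear_combination h7
  have h2 : ∑ r ∈ (univ.erase i).erase k, ∑ σ : Perm I, g (σ i) * h (σ k) * w (σ r) =
      ((Fintype.card I : K) - 2) * ∑ σ : Perm I, g (σ i) * h (σ k) * w (σ l) := by
    rw [Finset.sum_congr rfl h1, Finset.sum_const, nsmul_eq_mul, hcard]
  rw [← h2, Finset.sum_comm, ← Finset.sum_neg_distrib]
  refine Finset.sum_congr rfl fun σ _ => ?_
  rw [← Finset.mul_sum]
  have h3 : ∑ r ∈ (univ.erase i).erase k, w (σ r) = - (w (σ i) + w (σ k)) := by
    have h4 := Finset.add_sum_erase univ (fun r => w (σ r)) (mem_univ i)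
    have h5 := Finset.add_sum_erase (univ.erase i) (fun r => w (σ r)) hk
    rw [Equiv.sum_comp σ w, hw] at h4
    linear_combination h4 + h5
  rw [h3, mul_neg]

end Average

section Sets

variable {K : Type*} [CommRing K] {I : Type*} [DecidableEq I]

theorem sum_insert_sets (s : Finset I) (k : ℕ) (F : Finset I → K) :
    ∑ i ∈ s, ∑ S ∈ powersetCard k (s.erase i), F (insert i S) =
      ((k : K) + 1) * ∑ T ∈ powersetCard (k + 1) s, F T := by
  have h1 : ∀ T ∈ powersetCard (k + 1) s, ∑ _i ∈ T, F T = ((k : K) + 1) * F T := by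
    intro T hT
    rw [Finset.sum_const, nsmul_eq_mul, (mem_powersetCard.1 hT).2]
    push_cast
    ring
  rw [Finset.mul_sum, ← Finset.sum_congr rfl h1, Finset.sum_sigma', Finset.sum_sigma']
  refine Finset.sum_bij' (fun x _ => ⟨insert x.1 x.2, x.1⟩) (fun x _ => ⟨x.2, x.1.erase x.2⟩)
    ?_ ?_ ?_ ?_ ?_
  · rintro ⟨i, S⟩ h
    rw [mem_sigma, mem_powersetCard] at h ⊢
    obtain ⟨hi, hS, hc⟩ := h
    have hiS : i ∉ S := fun h => (mem_erase.1 (hS h)).1 rfl
    refine ⟨⟨?_, ?_⟩, mem_insert_self _ _⟩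
    · exact insert_subset hi (hS.trans (erase_subset _ _))
    · change (insert i S).card = k + 1
      rw [card_insert_of_notMem hiS]
      exact congrArg (· + 1) hc
  · rintro ⟨T, i⟩ h
    rw [mem_sigma, mem_powersetCard] at h ⊢
    obtain ⟨⟨hT, hc⟩, hi⟩ := h
    refine ⟨hT hi, erase_subset_erase _ hT, ?_⟩
    change (T.erase i).card = k
    rw [card_erase_of_mem hi]
    have : T.card = k + 1 := hc
    omega
  · rintro ⟨i, S⟩ h
    rw [mem_sigma, mem_powersetCard] at h
    have hiS : i ∉ S := fun h' => (mem_erase.1 (h.2.1 h')).1 rfl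
    simp [erase_insert hiS]
  · rintro ⟨T, i⟩ h
    rw [mem_sigma] at h
    simp [insert_erase h.2]
  · rintro ⟨i, S⟩ _
    rfl

variable [Fintype I]

theorem sum_pairs (F : Finset I → K) :
    ∑ i, ∑ k ∈ univ.erase i, F {i, k} = 2 * ∑ T ∈ powersetCard 2 univ, F T := by
  have h1 := sum_insert_sets univ 1 F
  rw [show ((1 : ℕ) : K) + 1 = 2 by norm_num] at h1
  rw [← h1]
  refine Finset.sum_congr rfl fun i _ => ?_
  rw [powersetCard_one, sum_map]
  rfl

theorem sum_triples (F : Finset I → K) :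
    ∑ i, ∑ k ∈ univ.erase i, ∑ l ∈ (univ.erase i).erase k, F {i, k, l} =
      6 * ∑ T ∈ powersetCard 3 univ, F T := by
  have h1 := sum_insert_sets univ 2 F
  rw [show ((2 : ℕ) : K) + 1 = 3 by norm_num] at h1
  have h2 : ∀ i : I, ∑ k ∈ univ.erase i, ∑ l ∈ (univ.erase i).erase k, F {i, k, l} =
      2 * ∑ S ∈ powersetCard 2 (univ.erase i), F (insert i S) := by
    intro i
    have h3 := sum_insert_sets (univ.erase i) 1 (fun S => F (insert i S))
    rw [show ((1 : ℕ) : K) + 1 = 2 by norm_num] at h3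
    rw [← h3]
    refine Finset.sum_congr rfl fun k _ => ?_
    rw [powersetCard_one, sum_map]
    rfl
  rw [Finset.sum_congr rfl fun i _ => h2 i, ← Finset.mul_sum, h1]
  ring

end Sets

end Pool.Agent.V7L.Dc
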